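import Mathlib

set_option autoImplicit false
set_option linter.unusedSectionVars false

namespace Pool.Agent.Results.MP_03d2dd_co.HighHomogeneity

namespace HLS

/-- A latin square presented through its rows: row `r` is the bijection `p r` from columns to
symbols, and every column is a bijection from rows to symbols. -/
structure Sq (R C S : Type) where
  p : R → C ≃ S
  col : ∀ c, Function.Bijective (fun r => p r c)

variable {R C S : Type}

namespace Sq

variable (L : Sq R C S)

/-- the row permutation: `pi r r' c` is the column of row `r'` containing the symbol of `(r,c)`. -/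
def pi (r r' : R) : Equiv.Perm C := (L.p r).trans (L.p r').symm

lemma p_pi (r r' : R) (c : C) : L.p r' (L.pi r r' c) = L.p r c := by
  simp [pi]

lemma pi_eq_iff (r r' : R) (c d : C) : L.pi r r' c = d ↔ L.p r c = L.p r' d := by
  constructor
  · rintro rfl; rw [L.p_pi]
  · intro h
    apply (L.p r').injective
    rw [L.p_pi, h]

lemma pi_pi (r r' r'' : R) (c : C) : L.pi r' r'' (L.pi r r' c) = L.pi r r'' c := by
  rw [pi_eq_iff, L.p_pi, L.p_pi]

lemma pi_self (r : R) (c : C) : L.pi r r c = c := by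
  rw [pi_eq_iff]

lemma pi_inv (r r' : R) (c : C) : L.pi r' r (L.pi r r' c) = c := by
  rw [pi_pi, pi_self]

lemma pi_row_inj {r r1 r2 : R} {c : C} (h : L.pi r r1 c = L.pi r r2 c) : r1 = r2 := by
  apply (L.col (L.pi r r1 c)).1
  show L.p r1 (L.pi r r1 c) = L.p r2 (L.pi r r1 c)
  rw [L.p_pi, h, L.p_pi]

lemma pi_row_surj (r : R) (c d : C) : ∃ r', L.pi r r' c = d := by
  obtain ⟨r', hr'⟩ := (L.col d).2 (L.p r c)
  exact ⟨r', by rw [pi_eq_iff]; exact hr'.symm⟩

/-- `G r r' c`: the cell `(r,c)` lies in an intercalate with row `r'` (or `r' = r`). -/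
def G (r r' : R) (c : C) : Prop := L.pi r r' (L.pi r r' c) = c

lemma G_iff (r r' : R) (c : C) : L.G r r' c ↔ L.p r (L.pi r r' c) = L.p r' c := by
  unfold G; rw [pi_eq_iff]

lemma G_self (r : R) (c : C) : L.G r r c := by
  unfold G; rw [pi_self, pi_self]

lemma G_pi (r r' : R) (c : C) : L.G r r' (L.pi r r' c) ↔ L.G r r' c := by
  unfold G
  constructor
  · intro h; exact (L.pi r r').injective h
  · intro h; rw [h]

lemma G_swap (r r' : R) (c : C) : L.G r' r c ↔ L.G r r' c := by
  unfold G
  constructor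
  · intro h
    have h1 := congrArg (L.pi r r') h
    rw [L.pi_inv r' r] at h1
    have h2 := congrArg (L.pi r r') h1
    rw [L.pi_inv r' r] at h2
    exact h2.symm
  · intro h
    have h1 := congrArg (L.pi r' r) h
    rw [L.pi_inv r r'] at h1
    have h2 := congrArg (L.pi r' r) h1
    rw [L.pi_inv r r'] at h2
    exact h2.symm

lemma G_apply {r r' : R} {c : C} (h : L.G r r' c) : L.pi r' r c = L.pi r r' c := by
  unfold G at h
  rw [pi_eq_iff]
  have := L.p_pi r r' (L.pi r r' c)
  rw [h] at this
  exact this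

/-- five of six -/
lemma five {r r' r'' : R} {c : C} (h1 : L.G r r'' c) (h2 : L.G r r'' (L.pi r r' c))
    (h3 : L.G r' r'' c) (h4 : L.G r' r'' (L.pi r r' c)) :
    L.G r r' (L.pi r r'' c) ↔ L.G r r' c := by
  -- write a = pi r r' and f = pi r r''
  set a := L.pi r r' with ha
  set f := L.pi r r'' with hf
  have hg : ∀ x, L.pi r' r'' (a x) = f x := fun x => L.pi_pi r r' r'' x
  -- (ii): G r' r'' (a c)
  have e4 : L.pi r' r'' (f c) = a c := by
    have := h4; unfold G at this; rw [hg] at this; exact this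
  -- f c = a (f (a c))
  have e2 : f (f (a c)) = a c := h2
  have e1 : f (f c) = c := h1
  have e4' : a (f (a c)) = f c := by
    -- pi r' r'' (a y) = f y with y = f (a c): f (f (a c)) = a c = pi r' r'' (f c)
    have h5 : L.pi r' r'' (a (f (a c))) = L.pi r' r'' (f c) := by
      rw [hg, e2, e4]
    exact (L.pi r' r'').injective h5
  have e3 : ∀ y, a y = c → a (f c) = f y := by
    intro y hy
    have h5 := h3; unfold G at h5
    rw [← hy, hg] at h5
    -- h5 : pi r' r'' (f y) = a y
    have h6 : L.pi r' r'' (a (f c)) = L.pi r' r'' (f y) := by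
      rw [hg, e1, h5, hy]
    exact (L.pi r' r'').injective h6
  obtain ⟨y, hy⟩ := a.surjective c
  have e3' := e3 y hy
  constructor
  · intro h
    have h' : a (a (f c)) = f c := h
    -- a (a (f c)) = f c = a (f (a c)) → a (f c) = f (a c)
    have h7 : a (f c) = f (a c) := a.injective (by rw [h', e4'])
    rw [e3'] at h7
    have h8 : y = a c := f.injective h7
    show a (a c) = c
    rw [← h8, hy]
  · intro h
    have h' : a (a c) = c := h
    have h8 : y = a c := a.injective (by rw [hy, h'])
    show a (a (f c)) = f c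
    rw [e3', h8, e4']

section finpart
variable [Fintype R] [Fintype C]

/-- the rows which are bad for the cell `(r,c)` -/
noncomputable def B (r : R) (c : C) : Finset R := by
  classical exact Finset.univ.filter (fun r' => ¬ L.G r r' c)

lemma mem_B (r : R) (c : C) (r' : R) : r' ∈ L.B r c ↔ ¬ L.G r r' c := by
  classical
  unfold B; simp

lemma card_orbit (E : Finset R) (r : R) (x : C) :
    (by classical exact (E.image (fun e => L.pi r e x)).card) = E.card := by
  classical
  apply Finset.card_image_of_injective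
  intro e f h
  exact L.pi_row_inj h

lemma orbit_le [DecidableEq R] [DecidableEq C] (E : Finset R) (r : R) (x : C) (A : Finset C)
    (h : ∀ e ∈ E, L.pi r e x ∈ A) : E.card ≤ A.card := by
  apply Finset.card_le_card_of_injOn (fun e => L.pi r e x) h
  intro e _ f _ h
  exact L.pi_row_inj h

theorem dich [DecidableEq R] [DecidableEq C] {n b : ℕ} (hR : Fintype.card R = n) (hC : Fintype.card C = n)
    (hb : ∀ r c, (L.B r c).card ≤ b) (h8 : 8 * b ≤ n) (r r' : R) :
    (∀ c, L.G r r' c) ∨ (∀ c, ¬ L.G r r' c) := by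
  classical
  by_contra hcon
  push Not at hcon
  obtain ⟨⟨y, hy⟩, ⟨x, hx⟩⟩ := hcon
  set X := Finset.univ.filter (fun c => L.G r r' c) with hX
  set Y := Finset.univ.filter (fun c => ¬ L.G r r' c) with hY
  have hXY : X.card + Y.card = n := by
    rw [hX, hY, Finset.card_filter_add_card_filter_not, Finset.card_univ, hC]
  have key : ∀ z (U : Finset R), U = L.B r z ∪ L.B r (L.pi r r' z) ∪ L.B r' z ∪ L.B r' (L.pi r r' z) →
      ∀ e ∈ Finset.univ \ U, (L.G r r' (L.pi r e z) ↔ L.G r r' z) := by
    intro z U hU e he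
    rw [Finset.mem_sdiff, hU] at he
    simp only [Finset.mem_union, mem_B, not_or, not_not] at he
    obtain ⟨_, ⟨⟨h1, h2⟩, h3⟩, h4⟩ := he
    exact L.five h1 h2 h3 h4
  have cX : n - 4 * b ≤ X.card := by
    set U := L.B r x ∪ L.B r (L.pi r r' x) ∪ L.B r' x ∪ L.B r' (L.pi r r' x) with hU
    have h1 : (Finset.univ \ U).card ≤ X.card := by
      apply L.orbit_le _ r x
      intro e he
      rw [hX, Finset.mem_filter]
      exact ⟨Finset.mem_univ _, (key x U hU e he).2 hx⟩
    have h2 : U.card ≤ 4 * b := by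
      rw [hU]
      have a1 := Finset.card_union_le (L.B r x ∪ L.B r (L.pi r r' x) ∪ L.B r' x) (L.B r' (L.pi r r' x))
      have a2 := Finset.card_union_le (L.B r x ∪ L.B r (L.pi r r' x)) (L.B r' x)
      have a3 := Finset.card_union_le (L.B r x) (L.B r (L.pi r r' x))
      have := hb r x; have := hb r (L.pi r r' x); have := hb r' x; have := hb r' (L.pi r r' x)
      omega
    have h3 : (Finset.univ \ U).card = n - U.card := by
      rw [← hR, ← Finset.card_univ, Finset.card_sdiff_of_subset (Finset.subset_univ _)]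
    omega
  have cY : n - 4 * b + 1 ≤ Y.card := by
    set U := L.B r y ∪ L.B r (L.pi r r' y) ∪ L.B r' y ∪ L.B r' (L.pi r r' y) with hU
    have h1 : (Finset.univ \ U).card ≤ Y.card := by
      apply L.orbit_le _ r y
      intro e he
      rw [hY, Finset.mem_filter]
      refine ⟨Finset.mem_univ _, ?_⟩
      rw [key y U hU e he]; exact hy
    have hpos : 1 ≤ (L.B r y ∩ L.B r (L.pi r r' y)).card := by
      rw [Nat.one_le_iff_ne_zero, ← Nat.pos_iff_ne_zero, Finset.card_pos]
      refine ⟨r', ?_⟩
      rw [Finset.mem_inter, mem_B, mem_B, L.G_pi]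
      exact ⟨hy, hy⟩
    have h2 : U.card + 1 ≤ 4 * b := by
      rw [hU]
      have a1 := Finset.card_union_le (L.B r y ∪ L.B r (L.pi r r' y) ∪ L.B r' y) (L.B r' (L.pi r r' y))
      have a2 := Finset.card_union_le (L.B r y ∪ L.B r (L.pi r r' y)) (L.B r' y)
      have a3 := Finset.card_union_add_card_inter (L.B r y) (L.B r (L.pi r r' y))
      have := hb r y; have := hb r (L.pi r r' y); have := hb r' y; have := hb r' (L.pi r r' y)
      omega
    have h3 : (Finset.univ \ U).card = n - U.card := by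
      rw [← hR, ← Finset.card_univ, Finset.card_sdiff_of_subset (Finset.subset_univ _)]
    omega
  omega

end finpart

/-! ### good and bad pairs of rows -/

def Good (r r' : R) : Prop := ∀ c, L.G r r' c

lemma good_self (r : R) : L.Good r r := fun c => L.G_self r c

lemma good_symm {r r' : R} (h : L.Good r r') : L.Good r' r := fun c => (L.G_swap r r' c).2 (h c)

lemma good_inv {r i : R} (h : L.Good r i) (x : C) : L.pi r i (L.pi r i x) = x := h x

lemma good_rev {r i : R} (h : L.Good r i) (x : C) : L.pi i r x = L.pi r i x := L.G_apply (h x)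

/-- goodness of `i, j` at a point is commutation of the involutions -/
lemma comm {r i j : R} (hi : L.Good r i) (hj : L.Good r j) (hij : L.Good i j) (x : C) :
    L.pi r i (L.pi r j x) = L.pi r j (L.pi r i x) := by
  have h1 : L.pi i j (L.pi r j x) = L.pi r i x := by
    have := hij (L.pi r i x)
    unfold G at this
    rw [L.pi_pi r i j x] at this
    exact this
  have h2 : L.pi r j (L.pi i r (L.pi r j x)) = L.pi r i x := by
    rw [L.pi_pi i r j]; exact h1
  rw [L.good_rev hi] at h2
  rw [← h2, L.good_inv hj]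

lemma comm_conv {r i j : R} (hi : L.Good r i) (hj : L.Good r j) {x : C}
    (h : L.pi r i (L.pi r j x) = L.pi r j (L.pi r i x)) : L.G i j (L.pi r i x) := by
  unfold G
  rw [L.pi_pi r i j x, ← L.pi_pi i r j, L.good_rev hi, h, L.good_inv hj]

section finpart2
variable [Fintype R] [Fintype C]

noncomputable def bad (r : R) : Finset R := by
  classical exact Finset.univ.filter (fun r' => ¬ L.Good r r')

lemma mem_bad {r r' : R} : r' ∈ L.bad r ↔ ¬ L.Good r r' := by
  classical
  unfold bad; simp

lemma mem_bad_symm {r r' : R} : r' ∈ L.bad r ↔ r ∈ L.bad r' := by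
  rw [mem_bad, mem_bad]
  exact not_congr ⟨L.good_symm, L.good_symm⟩

/-- the standing hypotheses -/
structure Hyp (n b : ℕ) : Prop where
  hR : Fintype.card R = n
  hC : Fintype.card C = n
  hb : ∀ r c, (L.B r c).card ≤ b
  h8 : 8 * b ≤ n
  hn : 0 < n

variable {L} {n b : ℕ}

lemma Hyp.nonempty (H : L.Hyp n b) : Nonempty C := by
  rw [← Fintype.card_pos_iff, H.hC]; exact H.hn

lemma Hyp.good_of (H : L.Hyp n b) {r r' : R} {c : C} (h : L.G r r' c) : L.Good r r' := by
  classical
  rcases L.dich H.hR H.hC H.hb H.h8 r r' with h1 | h1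
  · exact h1
  · exact absurd h (h1 c)

lemma Hyp.notG_of (H : L.Hyp n b) {r r' : R} (h : ¬ L.Good r r') (c : C) : ¬ L.G r r' c :=
  fun h' => h (H.good_of h')

lemma Hyp.bad_eq (H : L.Hyp n b) (r : R) (c : C) : L.bad r = L.B r c := by
  ext r'
  rw [mem_bad, mem_B]
  constructor
  · intro h; exact H.notG_of h c
  · intro h h'; exact h (h' c)

lemma Hyp.bad_card (H : L.Hyp n b) (r : R) : (L.bad r).card ≤ b := by
  obtain ⟨c⟩ := H.nonempty
  rw [H.bad_eq r c]; exact H.hb r c

/-- invariance -/
lemma inv_iff {r i j k e : R} (hi : L.Good r i) (hj : L.Good r j) (hk : L.Good r k)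
    (he : L.Good r e) (hei : L.Good i e) (hej : L.Good j e) (hek : L.Good k e) (x : C) :
    L.pi r k (L.pi r e x) = L.pi r i (L.pi r j (L.pi r e x)) ↔
      L.pi r k x = L.pi r i (L.pi r j x) := by
  rw [L.comm hk he hek, L.comm hj he hej, L.comm hi he hei]
  constructor
  · intro h; exact (L.pi r e).injective h
  · intro h; rw [h]

/-- the key counting -/
lemma Hyp.key (H : L.Hyp n b) [DecidableEq R] {r i j k : R} (hi : L.Good r i) (hj : L.Good r j)
    (hk : L.Good r k) {x : C} (hx : L.pi r k x = L.pi r i (L.pi r j x)) {x' : C}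
    (hx' : L.pi r k x' ≠ L.pi r i (L.pi r j x')) :
    n ≤ 2 * (L.bad r ∪ L.bad i ∪ L.bad j ∪ L.bad k).card := by
  classical
  set U := L.bad r ∪ L.bad i ∪ L.bad j ∪ L.bad k with hU
  set A := Finset.univ.filter (fun y => L.pi r k y = L.pi r i (L.pi r j y)) with hA
  set A' := Finset.univ.filter (fun y => ¬ (L.pi r k y = L.pi r i (L.pi r j y))) with hA'
  have hsum : A.card + A'.card = n := by
    rw [hA, hA', Finset.card_filter_add_card_filter_not, Finset.card_univ, H.hC]
  have hE : ∀ e ∈ Finset.univ \ U, ∀ y, (L.pi r k (L.pi r e y) = L.pi r i (L.pi r j (L.pi r e y)) ↔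
      L.pi r k y = L.pi r i (L.pi r j y)) := by
    intro e he y
    rw [Finset.mem_sdiff, hU] at he
    simp only [Finset.mem_union, mem_bad, not_or, not_not] at he
    obtain ⟨_, ⟨⟨h1, h2⟩, h3⟩, h4⟩ := he
    exact inv_iff hi hj hk h1 h2 h3 h4 y
  have c1 : (Finset.univ \ U).card ≤ A.card := by
    apply L.orbit_le _ r x
    intro e he
    rw [hA, Finset.mem_filter]
    exact ⟨Finset.mem_univ _, (hE e he x).2 hx⟩
  have c2 : (Finset.univ \ U).card ≤ A'.card := by
    apply L.orbit_le _ r x'
    intro e he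
    rw [hA', Finset.mem_filter]
    exact ⟨Finset.mem_univ _, fun h => hx' ((hE e he x').1 h)⟩
  have h3 : (Finset.univ \ U).card = n - U.card := by
    rw [← H.hR, ← Finset.card_univ, Finset.card_sdiff_of_subset (Finset.subset_univ _)]
  omega

/-- step five -/
lemma Hyp.step (H : L.Hyp n b) [DecidableEq R] {r i j : R} (hi : L.Good r i) (hj : L.Good r j)
    (hij : ¬ L.Good i j) (x : C) :
    ∃ a k, L.Good r a ∧ L.Good r k ∧ L.Good i a ∧ L.Good i k ∧ L.Good a k ∧
      L.pi r k x = L.pi r a (L.pi r i x) ∧ ∃ x', L.pi r k x' ≠ L.pi r a (L.pi r i x') := by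
  classical
  have hbpos : 1 ≤ b := by
    have h1 : j ∈ L.bad i := (L.mem_bad).2 hij
    have h2 := H.bad_card i
    have h3 : 0 < (L.bad i).card := Finset.card_pos.2 ⟨j, h1⟩
    omega
  -- the map k
  have hk0 : ∀ a, ∃ k, L.pi r k x = L.pi r a (L.pi r i x) := fun a => L.pi_row_surj r x _
  choose k hk using hk0
  have kinj : Function.Injective k := by
    intro a a' h
    have h1 := hk a
    have h2 := hk a'
    rw [h, h2] at h1
    exact (L.pi_row_inj h1).symm
  set M := L.bad r ∪ L.bad i ∪ L.bad j with hM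
  have hMc : M.card ≤ 3 * b := by
    rw [hM]
    have a2 := Finset.card_union_le (L.bad r ∪ L.bad i) (L.bad j)
    have a3 := Finset.card_union_le (L.bad r) (L.bad i)
    have := H.bad_card r; have := H.bad_card i; have := H.bad_card j
    omega
  -- find a with a ∉ M, k a ∉ M
  have hex : ∃ a, a ∉ M ∧ k a ∉ M := by
    by_contra hcon
    push Not at hcon
    have h1 : (Finset.univ : Finset R) ⊆ M ∪ M.preimage k kinj.injOn := by
      intro a _
      rw [Finset.mem_union, Finset.mem_preimage]
      by_cases ha : a ∈ M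
      · exact Or.inl ha
      · exact Or.inr (hcon a ha)
    have h2 := Finset.card_le_card h1
    have h3 := Finset.card_union_le M (M.preimage k kinj.injOn)
    have h4 : (M.preimage k kinj.injOn).card ≤ M.card :=
      Finset.card_le_card_of_injOn k (fun a ha => by simpa using ha) kinj.injOn
    rw [Finset.card_univ, H.hR] at h2
    have := H.h8
    omega
  obtain ⟨a, ha, hka⟩ := hex
  rw [hM] at ha hka
  simp only [Finset.mem_union, mem_bad, not_or, not_not] at ha hka
  obtain ⟨⟨ra, ia⟩, ja⟩ := ha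
  obtain ⟨⟨rk, ik⟩, jk⟩ := hka
  -- a ~ k a
  have e1 : L.pi r (k a) (L.pi r i x) = L.pi r a x := by
    have h1 : L.pi r (k a) (L.pi r i x) = L.pi r i (L.pi r (k a) x) :=
      L.comm rk hi (L.good_symm ik) x
    rw [h1, hk a, L.comm ra hi (L.good_symm ia), L.good_inv hi]
  have hak : L.Good a (k a) := by
    apply H.good_of (c := L.pi r a (L.pi r i x))
    apply L.comm_conv ra rk
    rw [e1, L.good_inv ra, ← hk a, L.good_inv rk]
  refine ⟨a, k a, ra, rk, ia, ik, hak, hk a, ?_⟩
  by_contra hcon
  push Not at hcon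
  apply hij
  -- P_i = P_a P_k
  have hPi : ∀ y, L.pi r i y = L.pi r a (L.pi r (k a) y) := by
    intro y
    rw [hcon y, L.good_inv ra]
  apply H.good_of (c := L.pi r i x)
  apply L.comm_conv hi hj
  rw [hPi, hPi, L.comm hj ra ja, L.comm hj rk jk]

lemma Hyp.strict (H : L.Hyp n b) (hs : 8 * b < n) (i j : R) : L.Good i j := by
  classical
  by_contra hij
  obtain ⟨r, hr⟩ : ∃ r, r ∉ L.bad i ∪ L.bad j := by
    by_contra hcon
    push Not at hcon
    have h1 : (Finset.univ : Finset R) ⊆ L.bad i ∪ L.bad j := fun r _ => hcon r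
    have h2 := Finset.card_le_card h1
    have h3 := Finset.card_union_le (L.bad i) (L.bad j)
    have := H.bad_card i
    have := H.bad_card j
    rw [Finset.card_univ, H.hR] at h2
    omega
  simp only [Finset.mem_union, mem_bad, not_or, not_not] at hr
  obtain ⟨x⟩ := H.nonempty
  obtain ⟨a, k, ra, rk, ia, ik, ak, hx, x', hx'⟩ :=
    H.step (L.good_symm hr.1) (L.good_symm hr.2) hij x
  have h1 := H.key ra (L.good_symm hr.1) rk hx hx'
  have a1 := Finset.card_union_le (L.bad r ∪ L.bad a ∪ L.bad i) (L.bad k)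
  have a2 := Finset.card_union_le (L.bad r ∪ L.bad a) (L.bad i)
  have a3 := Finset.card_union_le (L.bad r) (L.bad a)
  have := H.bad_card r; have := H.bad_card a; have := H.bad_card i; have := H.bad_card k
  omega

end finpart2

/-! ### the symbol parastrophe -/

noncomputable def ce (c : C) : R ≃ S := Equiv.ofBijective _ (L.col c)

lemma ce_apply (c : C) (r : R) : L.ce c r = L.p r c := rfl

noncomputable def sym : Sq S C R where
  p s :=
    { toFun := fun c => (L.ce c).symm s
      invFun := fun r => (L.p r).symm s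
      left_inv := by
        intro c
        rw [Equiv.symm_apply_eq]
        show s = L.p ((L.ce c).symm s) c
        rw [← ce_apply, Equiv.apply_symm_apply]
      right_inv := by
        intro r
        show (L.ce ((L.p r).symm s)).symm s = r
        rw [Equiv.symm_apply_eq, ce_apply, Equiv.apply_symm_apply] }
  col c := (L.ce c).symm.bijective

lemma sym_p (s : S) (c : C) (r : R) : L.sym.p s c = r ↔ L.p r c = s := by
  show (L.ce c).symm s = r ↔ L.p r c = s
  rw [Equiv.symm_apply_eq, ce_apply]
  exact eq_comm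

lemma sym_G (r r1 : R) (c : C) : L.sym.G (L.p r c) (L.p r1 c) c ↔ L.G r r1 c := by
  -- second column c' : row r has symbol s' = p r1 c in c'
  have h1 : L.sym.pi (L.p r c) (L.p r1 c) c = (L.p r).symm (L.p r1 c) := by
    rw [pi_eq_iff]
    have e1 : L.sym.p (L.p r c) c = r := (L.sym_p _ _ _).2 rfl
    rw [e1]
    symm
    rw [sym_p, Equiv.apply_symm_apply]
  set c' := (L.p r).symm (L.p r1 c) with hc'
  have hc2 : L.p r c' = L.p r1 c := by rw [hc', Equiv.apply_symm_apply]
  unfold G
  rw [h1, pi_eq_iff]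
  have e2 : L.sym.p (L.p r1 c) c = r1 := (L.sym_p _ _ _).2 rfl
  rw [e2, sym_p, pi_eq_iff]
  constructor
  · intro h
    have h3 : L.pi r r1 c = c' := by rw [pi_eq_iff]; exact h.symm
    rw [h3, hc2]
  · intro h
    rw [← hc2] at h
    have h3 := (L.p r).injective h
    rw [← h3, L.p_pi]

section finpart3
variable [Fintype R] [Fintype C] [Fintype S]
variable {L} {n b : ℕ}

lemma sym_B_card (r : R) (c : C) : (L.sym.B (L.p r c) c).card = (L.B r c).card := by
  classical
  symm
  apply Finset.card_bij (fun r1 _ => L.p r1 c)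
  · intro r1 h1
    rw [mem_B] at h1 ⊢
    rw [sym_G]; exact h1
  · intro r1 _ r2 _ h
    exact (L.col c).1 h
  · intro s hs
    obtain ⟨r1, hr1⟩ := (L.col c).2 s
    refine ⟨r1, ?_, hr1⟩
    rw [mem_B] at hs ⊢
    rw [← L.sym_G, show L.p r1 c = s from hr1]; exact hs

lemma Hyp.symH (H : L.Hyp n b) : L.sym.Hyp n b where
  hR := by
    obtain ⟨c⟩ := H.nonempty
    rw [← Fintype.card_congr (L.ce c), H.hR]
  hC := H.hC
  hb := by
    intro s c
    obtain ⟨r, hr⟩ := (L.col c).2 s
    have : L.p r c = s := hr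
    rw [← this, sym_B_card]
    exact H.hb r c
  h8 := H.h8
  hn := H.hn

/-- transport of badness between columns -/
lemma Hyp.tau (H : L.Hyp n b) {r w u m : R} {y z : C} (h1 : L.p m z = L.p r y)
    (h2 : L.p u z = L.p w y) (h : ¬ L.Good r w) : ¬ L.Good m u := by
  intro hmu
  apply h
  have e1 : L.sym.G (L.p m z) (L.p u z) z := (L.sym_G m u z).2 (hmu z)
  rw [h1, h2] at e1
  have e2 := H.symH.good_of e1
  have e3 := e2 y
  rw [L.sym_G] at e3
  exact H.good_of e3

/-! ### the equality case -/

structure HypE (L : Sq R C S) (n b : ℕ) : Prop extends L.Hyp n b where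
  hcard : ∀ r, (L.bad r).card = b
  h8e : n = 8 * b

lemma HypE.bpos (H : HypE L n b) : 0 < b := by
  have := H.hn; have := H.h8e; omega

lemma HypE.disj [DecidableEq R] (H : HypE L n b) {r i j : R} (hi : L.Good r i) (hj : L.Good r j)
    (hij : ¬ L.Good i j) : L.bad r ∩ L.bad i = ∅ := by
  classical
  obtain ⟨x⟩ := H.nonempty
  obtain ⟨a, k, ra, rk, ia, ik, ak, hx, x', hx'⟩ := H.toHyp.step hi hj hij x
  have h1 := H.toHyp.key hi ra rk (by rw [hx, L.comm ra hi (L.good_symm ia)]) 
    (x' := x') (by rw [L.comm hi ra ia]; exact hx')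
  rw [← Finset.card_eq_zero]
  have a1 := Finset.card_union_le (L.bad r ∪ L.bad i ∪ L.bad a) (L.bad k)
  have a2 := Finset.card_union_le (L.bad r ∪ L.bad i) (L.bad a)
  have a3 := Finset.card_union_add_card_inter (L.bad r) (L.bad i)
  have := H.bad_card r; have := H.bad_card a; have := H.bad_card i; have := H.bad_card k
  have := H.h8e
  omega

lemma HypE.twins [DecidableEq R] (H : HypE L n b) {r i u : R} (hi : L.Good r i)
    (h1 : u ∈ L.bad r) (h2 : u ∈ L.bad i) : L.bad r = L.bad i := by
  classical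
  symm
  apply Finset.eq_of_subset_of_card_le
  · intro j hj
    rw [mem_bad] at hj ⊢
    intro hrj
    have := H.disj hi hrj hj
    have h3 : u ∈ L.bad r ∩ L.bad i := Finset.mem_inter.2 ⟨h1, h2⟩
    rw [this] at h3
    exact absurd h3 (Finset.notMem_empty _)
  · rw [H.hcard, H.hcard]

/-- the twin class -/
noncomputable def tw (L : Sq R C S) (r : R) : Finset R := by
  classical exact Finset.univ.filter (fun z => L.bad z = L.bad r)

lemma mem_tw {r z : R} : z ∈ L.tw r ↔ L.bad z = L.bad r := by
  classical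
  unfold tw; simp

lemma HypE.tw_card_le (H : HypE L n b) (r : R) : (L.tw r).card ≤ b := by
  classical
  have h1 : (L.bad r).Nonempty := by
    rw [← Finset.card_pos, H.hcard]; exact H.bpos
  obtain ⟨q, hq⟩ := h1
  rw [← H.hcard q]
  apply Finset.card_le_card
  intro z hz
  rw [mem_tw] at hz
  rw [← hz] at hq
  exact (L.mem_bad_symm).1 hq

lemma HypE.tw_card (H : HypE L n b) : ∃ r, (L.tw r).card = b := by
  classical
  obtain ⟨x⟩ := H.nonempty
  have hRne : Nonempty R := by
    rw [← Fintype.card_pos_iff, H.hR]; exact H.hn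
  obtain ⟨i⟩ := hRne
  have h1 : (L.bad i).Nonempty := by
    rw [← Finset.card_pos, H.hcard]; exact H.bpos
  obtain ⟨j, hj⟩ := h1
  have hij := (L.mem_bad).1 hj
  obtain ⟨r, hr⟩ : ∃ r, r ∉ L.bad i ∪ L.bad j := by
    by_contra hcon
    push Not at hcon
    have h1 : (Finset.univ : Finset R) ⊆ L.bad i ∪ L.bad j := fun r _ => hcon r
    have h2 := Finset.card_le_card h1
    have h3 := Finset.card_union_le (L.bad i) (L.bad j)
    have := H.bad_card i
    have := H.bad_card j
    have := H.bpos
    have := H.h8e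
    rw [Finset.card_univ, H.hR] at h2
    omega
  simp only [Finset.mem_union, mem_bad, not_or, not_not] at hr
  have ri := L.good_symm hr.1
  have rj := L.good_symm hr.2
  obtain ⟨a, k, ra, rk, ia, ik, ak, hx, x', hx'⟩ := H.toHyp.step ri rj hij x
  have h1 := H.toHyp.key ra ri rk hx hx'
  refine ⟨r, ?_⟩
  set U := L.bad r ∪ L.bad a ∪ L.bad i ∪ L.bad k with hU
  have hUc : U.card = 4 * b := by
    have a1 := Finset.card_union_le (L.bad r ∪ L.bad a ∪ L.bad i) (L.bad k)
    have a2 := Finset.card_union_le (L.bad r ∪ L.bad a) (L.bad i)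
    have a3 := Finset.card_union_le (L.bad r) (L.bad a)
    rw [← hU] at a1
    have := H.bad_card r; have := H.bad_card a; have := H.bad_card i; have := H.bad_card k
    have := H.h8e
    omega
  have hEc : (Finset.univ \ U).card = 4 * b := by
    rw [Finset.card_sdiff_of_subset (Finset.subset_univ _), Finset.card_univ, H.hR, hUc, H.h8e]
    omega
  set A := Finset.univ.filter (fun y => L.pi r k y = L.pi r a (L.pi r i y)) with hA
  set A' := Finset.univ.filter (fun y => ¬ (L.pi r k y = L.pi r a (L.pi r i y))) with hA'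
  have hsum : A.card + A'.card = n := by
    rw [hA, hA', Finset.card_filter_add_card_filter_not, Finset.card_univ, H.hC]
  have hE : ∀ e ∈ Finset.univ \ U, ∀ y, (L.pi r k (L.pi r e y) = L.pi r a (L.pi r i (L.pi r e y)) ↔
      L.pi r k y = L.pi r a (L.pi r i y)) := by
    intro e he y
    rw [Finset.mem_sdiff, hU] at he
    simp only [Finset.mem_union, mem_bad, not_or, not_not] at he
    obtain ⟨_, ⟨⟨h1, h2⟩, h3⟩, h4⟩ := he
    exact inv_iff ra ri rk h1 h2 h3 h4 y
  have sub1 : (Finset.univ \ U).image (fun e => L.pi r e x) ⊆ A := by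
    intro y hy
    rw [Finset.mem_image] at hy
    obtain ⟨e, he, rfl⟩ := hy
    rw [hA, Finset.mem_filter]
    exact ⟨Finset.mem_univ _, (hE e he x).2 hx⟩
  have c1 : (Finset.univ \ U).card ≤ A.card := by
    apply L.orbit_le _ r x
    intro e he
    rw [hA, Finset.mem_filter]
    exact ⟨Finset.mem_univ _, (hE e he x).2 hx⟩
  have c2 : (Finset.univ \ U).card ≤ A'.card := by
    apply L.orbit_le _ r x'
    intro e he
    rw [hA', Finset.mem_filter]
    exact ⟨Finset.mem_univ _, fun h => hx' ((hE e he x').1 h)⟩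
  have hAc : A.card = 4 * b := by
    have := H.h8e
    omega
  have himg : (Finset.univ \ U).image (fun e => L.pi r e x) = A := by
    apply Finset.eq_of_subset_of_card_le sub1
    rw [Finset.card_image_of_injective _ (fun e f h => L.pi_row_inj h), hEc, hAc]
  -- rows outside E move x outside A
  have hout : ∀ u ∈ U, L.pi r u x ∉ A := by
    intro u hu hmem
    rw [← himg, Finset.mem_image] at hmem
    obtain ⟨e, he, h⟩ := hmem
    have := L.pi_row_inj h
    rw [this, Finset.mem_sdiff] at he
    exact he.2 hu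
  have hin : ∀ u, L.pi r u x ∉ A → u ∈ U := by
    intro u hu
    by_contra hcon
    exact hu (sub1 (Finset.mem_image.2 ⟨u, Finset.mem_sdiff.2 ⟨Finset.mem_univ _, hcon⟩, rfl⟩))
  obtain ⟨w, hw⟩ : (L.bad r).Nonempty := by
    rw [← Finset.card_pos, H.hcard]; exact H.bpos
  have hwU : w ∈ U := by
    rw [hU]; simp only [Finset.mem_union]; exact Or.inl (Or.inl (Or.inl hw))
  have hcov : (Finset.univ \ U) ⊆ L.tw r ∪ L.tw a ∪ L.tw i ∪ L.tw k := by
    intro m hm
    have hm' := hm
    rw [Finset.mem_sdiff, hU] at hm'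
    simp only [Finset.mem_union, mem_bad, not_or, not_not] at hm'
    obtain ⟨_, ⟨⟨mr, ma⟩, mi⟩, mk⟩ := hm'
    -- y = pi r w x, z = pi r m y
    have hy := hout w hwU
    have hz : L.pi r m (L.pi r w x) ∉ A := by
      intro h
      apply hy
      rw [hA, Finset.mem_filter] at h ⊢
      exact ⟨Finset.mem_univ _, (hE m hm _).1 h.2⟩
    obtain ⟨u, hu⟩ := L.pi_row_surj r x (L.pi r m (L.pi r w x))
    have huU : u ∈ U := hin u (by rw [hu]; exact hz)
    have hmu : ¬ L.Good m u := by
      apply H.toHyp.tau (r := r) (w := w) (y := L.pi r w x) (z := L.pi r m (L.pi r w x))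
      · rw [L.p_pi]
      · rw [L.p_pi, ← hu, L.p_pi]
      · exact (L.mem_bad).1 hw
    have humb : u ∈ L.bad m := (L.mem_bad).2 hmu
    rw [hU] at huU
    simp only [Finset.mem_union] at huU ⊢
    rcases huU with ((h | h) | h) | h
    · exact Or.inl (Or.inl (Or.inl (mem_tw.2 (H.twins (L.good_symm mr) humb h))))
    · exact Or.inl (Or.inl (Or.inr (mem_tw.2 (H.twins (L.good_symm ma) humb h))))
    · exact Or.inl (Or.inr (mem_tw.2 (H.twins (L.good_symm mi) humb h)))
    · exact Or.inr (mem_tw.2 (H.twins (L.good_symm mk) humb h))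
  have h2 := Finset.card_le_card hcov
  have a1 := Finset.card_union_le (L.tw r ∪ L.tw a ∪ L.tw i) (L.tw k)
  have a2 := Finset.card_union_le (L.tw r ∪ L.tw a) (L.tw i)
  have a3 := Finset.card_union_le (L.tw r) (L.tw a)
  have := H.tw_card_le r; have := H.tw_card_le a; have := H.tw_card_le i
  have := H.tw_card_le k
  omega

lemma HypE.tw_closed (H : HypE L n b) {r z w : R} (hz : z ∈ L.tw r) (hw : w ∈ L.tw r) :
    ∃ k ∈ L.tw r, ∀ x, L.pi r k x = L.pi r z (L.pi r w x) := by
  classical
  obtain ⟨x⟩ := H.nonempty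
  rw [mem_tw] at hz hw
  have rz : L.Good r z := by
    by_contra h
    have h1 : z ∈ L.bad r := (L.mem_bad).2 h
    rw [← hz, L.mem_bad] at h1
    exact h1 (L.good_self z)
  have rw' : L.Good r w := by
    by_contra h
    have h1 : w ∈ L.bad r := (L.mem_bad).2 h
    rw [← hw, L.mem_bad] at h1
    exact h1 (L.good_self w)
  have zw : L.Good z w := by
    by_contra h
    have h1 : w ∈ L.bad z := (L.mem_bad).2 h
    rw [hz, ← hw, L.mem_bad] at h1
    exact h1 (L.good_self w)
  obtain ⟨k, hk⟩ := L.pi_row_surj r x (L.pi r z (L.pi r w x))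
  set U := L.bad r ∪ L.bad k with hU
  have hUc : U.card ≤ 2 * b := by
    have a3 := Finset.card_union_le (L.bad r) (L.bad k)
    have := H.bad_card r; have := H.bad_card k
    rw [← hU] at a3
    omega
  have hEc : 6 * b ≤ (Finset.univ \ U).card := by
    rw [Finset.card_sdiff_of_subset (Finset.subset_univ _), Finset.card_univ, H.hR, H.h8e]
    omega
  have hmem : ∀ e ∈ Finset.univ \ U, L.Good r e ∧ L.Good z e ∧ L.Good w e ∧ L.Good k e := by
    intro e he
    rw [Finset.mem_sdiff, hU, Finset.mem_union, not_or] at he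
    obtain ⟨_, h1, h2⟩ := he
    have h3 := h1
    have h4 := h1
    rw [← hz] at h3
    rw [← hw] at h4
    rw [mem_bad, not_not] at h1 h2 h3 h4
    exact ⟨h1, h3, h4, h2⟩
  have hbp := H.bpos
  by_cases hrk : L.Good r k
  · -- good case
    have hall : ∀ y, L.pi r k y = L.pi r z (L.pi r w y) := by
      by_contra hcon
      push Not at hcon
      obtain ⟨x', hx'⟩ := hcon
      have hE : ∀ e ∈ Finset.univ \ U, ∀ y, (L.pi r k (L.pi r e y) = L.pi r z (L.pi r w (L.pi r e y)) ↔
          L.pi r k y = L.pi r z (L.pi r w y)) := by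
        intro e he y
        obtain ⟨h1, h2, h3, h4⟩ := hmem e he
        exact inv_iff rz rw' hrk h1 h2 h3 h4 y
      set A := Finset.univ.filter (fun y => L.pi r k y = L.pi r z (L.pi r w y)) with hA
      set A' := Finset.univ.filter (fun y => ¬ (L.pi r k y = L.pi r z (L.pi r w y))) with hA'
      have hsum : A.card + A'.card = n := by
        rw [hA, hA', Finset.card_filter_add_card_filter_not, Finset.card_univ, H.hC]
      have c1 : (Finset.univ \ U).card ≤ A.card := by
        apply L.orbit_le _ r x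
        intro e he
        rw [hA, Finset.mem_filter]
        exact ⟨Finset.mem_univ _, (hE e he x).2 hk⟩
      have c2 : (Finset.univ \ U).card ≤ A'.card := by
        apply L.orbit_le _ r x'
        intro e he
        rw [hA', Finset.mem_filter]
        exact ⟨Finset.mem_univ _, fun h => hx' ((hE e he x').1 h)⟩
      have := H.h8e
      omega
    refine ⟨k, ?_, hall⟩
    rw [mem_tw]
    apply Finset.eq_of_subset_of_card_le
    · intro e he
      by_contra hcon
      have h3 := hcon
      have h4 := hcon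
      rw [← hz] at h3
      rw [← hw] at h4
      rw [mem_bad, not_not] at hcon h3 h4
      apply (L.mem_bad).1 he
      apply H.toHyp.good_of (c := L.pi r k x)
      apply L.comm_conv hrk hcon
      rw [hall, hall, L.comm rw' hcon h4, L.comm rz hcon h3]
    · rw [H.hcard, H.hcard]
  · -- bad case
    exfalso
    have hkey : ∀ e ∈ Finset.univ \ U,
        L.pi r k (L.pi r z (L.pi r w (L.pi r e x))) = L.pi r e x := by
      intro e he
      obtain ⟨h1, h2, h3, h4⟩ := hmem e he
      -- G e k at (pi r e x)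
      have h5 := (L.good_symm h4) (L.pi r e x)
      unfold G at h5
      rw [L.pi_pi r e k x, hk, ← L.pi_pi e r k, L.good_rev h1] at h5
      rw [L.comm h1 rz (L.good_symm h2), L.comm h1 rw' (L.good_symm h3)] at h5
      exact h5
    -- D = orbit, and its image under rho
    set D := (Finset.univ \ U).image (fun e => L.pi r e x) with hD
    set D' := (Finset.univ \ U).image (fun e => L.pi r z (L.pi r w (L.pi r e x))) with hD'
    have cD : D.card = (Finset.univ \ U).card := by
      rw [hD]; exact Finset.card_image_of_injective _ (fun e f h => L.pi_row_inj h)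
    have cD' : D'.card = (Finset.univ \ U).card := by
      rw [hD']
      apply Finset.card_image_of_injective
      intro e f h
      exact L.pi_row_inj ((L.pi r w).injective ((L.pi r z).injective h))
    have hinter : (D ∩ D').Nonempty := by
      rw [← Finset.card_pos]
      have h1 := Finset.card_union_add_card_inter D D'
      have h2 : (D ∪ D').card ≤ n := by
        rw [← H.hC]; exact Finset.card_le_univ _
      have := H.h8e
      omega
    obtain ⟨y, hy⟩ := hinter
    rw [Finset.mem_inter, hD, hD', Finset.mem_image, Finset.mem_image] at hy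
    obtain ⟨⟨e, he, hey⟩, ⟨f, hf, hfy⟩⟩ := hy
    have k1 := hkey e he
    have k2 := hkey f hf
    rw [hfy] at k2
    -- k2 : pi r k y = pi r f x ; k1 : pi r k (rho (pi r e x)) = y
    rw [hey] at k1
    have h6 : L.pi r z (L.pi r w y) = L.pi r f x := by
      rw [← hfy, L.comm rz rw' zw, L.good_inv rz, L.good_inv rw']
    rw [h6] at k1
    apply H.toHyp.notG_of hrk y
    unfold G
    rw [k2, k1]

/-- a set of rows closed under composition has size a power of two -/
lemma pow_two_of_closed [Nonempty C] (r : R) (Z : Finset R) (hr : r ∈ Z) (hg : ∀ z ∈ Z, L.Good r z)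
    (hcl : ∀ z ∈ Z, ∀ w ∈ Z, ∃ k ∈ Z, ∀ x, L.pi r k x = L.pi r z (L.pi r w x)) :
    ∃ s, Z.card = 2 ^ s := by
  classical
  let G0 : Subgroup (Equiv.Perm C) :=
    { carrier := {g | ∃ z ∈ Z, g = L.pi r z}
      one_mem' := ⟨r, hr, by ext x; rw [L.pi_self]; rfl⟩
      mul_mem' := by
        rintro g h ⟨z, hz, rfl⟩ ⟨w, hw, rfl⟩
        obtain ⟨k, hk, hx⟩ := hcl z hz w hw
        exact ⟨k, hk, by ext x; rw [hx]; rfl⟩
      inv_mem' := by
        rintro g ⟨z, hz, rfl⟩
        refine ⟨z, hz, ?_⟩
        rw [inv_eq_iff_mul_eq_one]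
        ext x
        exact hg z hz x }
  have hsq : ∀ g : G0, g ^ 2 = 1 := by
    rintro ⟨g, z, hz, rfl⟩
    apply Subtype.ext
    rw [pow_two]
    show L.pi r z * L.pi r z = 1
    ext x
    exact hg z hz x
  have hp : IsPGroup 2 G0 := fun g => ⟨1, by rw [pow_one]; exact hsq g⟩
  have : Fact (Nat.Prime 2) := ⟨Nat.prime_two⟩
  obtain ⟨s, hs⟩ := IsPGroup.iff_card.1 hp
  refine ⟨s, ?_⟩
  rw [← hs]
  have e : Z ≃ G0 := Equiv.ofBijective (fun z => ⟨L.pi r z.1, z.1, z.2, rfl⟩) (by
    constructor
    · intro z w h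
      have h1 : L.pi r z.1 = L.pi r w.1 := congrArg Subtype.val h
      obtain ⟨x⟩ := (inferInstance : Nonempty C)
      exact Subtype.ext (L.pi_row_inj (by rw [h1] : L.pi r z.1 x = L.pi r w.1 x))
    · rintro ⟨g, z, hz, rfl⟩
      exact ⟨⟨z, hz⟩, rfl⟩)
  rw [← Nat.card_congr e, Nat.card_eq_fintype_card, Fintype.card_coe]

theorem allgood_pow [Nonempty C] [Nonempty R] (h : ∀ i j, L.Good i j) :
    ∃ s, Fintype.card R = 2 ^ s := by
  classical
  obtain ⟨r⟩ := (inferInstance : Nonempty R)
  obtain ⟨x0⟩ := (inferInstance : Nonempty C)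
  rw [← Finset.card_univ]
  apply pow_two_of_closed (L := L) r Finset.univ (Finset.mem_univ _) (fun z _ => h r z)
  intro z _ w _
  obtain ⟨k, hk⟩ := L.pi_row_surj r x0 (L.pi r z (L.pi r w x0))
  refine ⟨k, Finset.mem_univ _, ?_⟩
  intro y
  obtain ⟨e, rfl⟩ := L.pi_row_surj r x0 y
  exact (inv_iff (h r z) (h r w) (h r k) (h r e) (h z e) (h w e) (h k e) x0).2 hk

theorem HypE.pow (H : HypE L n b) : ∃ s, b = 2 ^ s := by
  classical
  obtain ⟨r, hr⟩ := H.tw_card
  have := H.nonempty
  rw [← hr]
  apply pow_two_of_closed (L := L) r (L.tw r) (mem_tw.2 rfl)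
  · intro z hz
    rw [mem_tw] at hz
    by_contra h
    have h1 : z ∈ L.bad r := (L.mem_bad).2 h
    rw [← hz, L.mem_bad] at h1
    exact h1 (L.good_self z)
  · intro z hz w hw
    exact H.tw_closed hz hw

/-- `b = 1` is impossible -/
theorem B_card_ne_one (r : R) (c : C) : (L.B r c).card ≠ 1 := by
  classical
  intro h
  obtain ⟨r0, hr0⟩ := Finset.card_eq_one.1 h
  have hg : ∀ r1, r1 ≠ r0 → L.p r (L.pi r r1 c) = L.p r1 c := by
    intro r1 h1
    rw [← G_iff]
    by_contra h2
    have : r1 ∈ L.B r c := (L.mem_B _ _ _).2 h2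
    rw [hr0, Finset.mem_singleton] at this
    exact h1 this
  have hb : ¬ L.G r r0 c := by
    rw [← L.mem_B, hr0]; exact Finset.mem_singleton_self _
  rw [G_iff] at hb
  -- surjectivity: symbol p r0 c is p r d, d = pi r r1 c
  obtain ⟨r1, h1⟩ := L.pi_row_surj r c ((L.p r).symm (L.p r0 c))
  have h2 : L.p r (L.pi r r1 c) = L.p r0 c := by rw [h1, Equiv.apply_symm_apply]
  by_cases h3 : r1 = r0
  · rw [h3] at h2; exact hb h2
  · rw [hg r1 h3] at h2
    exact h3 ((L.col c).1 h2)

/-! ### bounds for orders not divisible by four -/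

theorem bad_lower [DecidableEq R] {n b : ℕ} (hR : Fintype.card R = n)
    (hb : ∀ r c, (L.B r c).card ≤ b) (r r' : R) (y : C) (hy : ¬ L.G r r' y) :
    n + 2 ≤ (by classical exact (Finset.univ.filter (fun c => ¬ L.G r r' c)).card) + 4 * b := by
  classical
  set Y := Finset.univ.filter (fun c => ¬ L.G r r' c) with hY
  show n + 2 ≤ Y.card + 4 * b
  set U := (L.B r y ∪ L.B r (L.pi r r' y)) ∪ (L.B r' y ∪ L.B r' (L.pi r r' y)) with hU
  have key : ∀ e ∈ Finset.univ \ U, (L.G r r' (L.pi r e y) ↔ L.G r r' y) := by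
    intro e he
    rw [Finset.mem_sdiff, hU] at he
    simp only [Finset.mem_union, mem_B, not_or, not_not] at he
    obtain ⟨_, ⟨h1, h2⟩, h3, h4⟩ := he
    exact L.five h1 h2 h3 h4
  have h1 : (Finset.univ \ U).card ≤ Y.card := by
    apply L.orbit_le _ r y
    intro e he
    rw [hY, Finset.mem_filter]
    refine ⟨Finset.mem_univ _, ?_⟩
    rw [key e he]; exact hy
  have hpos : 1 ≤ (L.B r y ∩ L.B r (L.pi r r' y)).card := by
    rw [Nat.one_le_iff_ne_zero, ← Nat.pos_iff_ne_zero, Finset.card_pos]
    refine ⟨r', ?_⟩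
    rw [Finset.mem_inter, mem_B, mem_B, L.G_pi]
    exact ⟨hy, hy⟩
  have hpos2 : 1 ≤ (L.B r' y ∩ L.B r' (L.pi r r' y)).card := by
    rw [Nat.one_le_iff_ne_zero, ← Nat.pos_iff_ne_zero, Finset.card_pos]
    refine ⟨r, ?_⟩
    rw [Finset.mem_inter, mem_B, mem_B]
    exact ⟨fun h => hy ((L.G_swap r r' y).1 h),
      fun h => hy ((L.G_pi r r' y).1 ((L.G_swap r r' _).1 h))⟩
  have h2 : U.card + 2 ≤ 4 * b := by
    rw [hU]
    have a1 := Finset.card_union_le (L.B r y ∪ L.B r (L.pi r r' y)) (L.B r' y ∪ L.B r' (L.pi r r' y))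
    have a2 := Finset.card_union_add_card_inter (L.B r' y) (L.B r' (L.pi r r' y))
    have a3 := Finset.card_union_add_card_inter (L.B r y) (L.B r (L.pi r r' y))
    have := hb r y; have := hb r (L.pi r r' y); have := hb r' y; have := hb r' (L.pi r r' y)
    omega
  have h3 : (Finset.univ \ U).card = n - U.card := by
    rw [← hR, ← Finset.card_univ, Finset.card_sdiff_of_subset (Finset.subset_univ _)]
  have h4 : U.card ≤ n := by rw [← hR]; exact Finset.card_le_univ _
  omega

theorem bad_sum [DecidableEq R] {n b : ℕ} (hC : Fintype.card C = n)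
    (hb : ∀ r c, (L.B r c).card ≤ b) (r : R) :
    (∑ r', (by classical exact (Finset.univ.filter (fun c => ¬ L.G r r' c)).card)) ≤ n * b := by
  classical
  have h1 : (∑ r', (Finset.univ.filter (fun c => ¬ L.G r r' c)).card) = ∑ c, (L.B r c).card := by
    simp only [Finset.card_filter]
    rw [Finset.sum_comm]
    apply Finset.sum_congr rfl
    intro c _
    rw [← Finset.card_filter]
    congr 1
  calc (∑ r', (Finset.univ.filter (fun c => ¬ L.G r r' c)).card) = ∑ c, (L.B r c).card := h1
    _ ≤ ∑ _c : C, b := Finset.sum_le_sum (fun c _ => hb r c)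
    _ = n * b := by rw [Finset.sum_const, Finset.card_univ, hC, smul_eq_mul]

/-- number of rows which are not totally good with `r` -/
theorem notgood_bound [DecidableEq R] {n b : ℕ} (hR : Fintype.card R = n) (hC : Fintype.card C = n)
    (hb : ∀ r c, (L.B r c).card ≤ b) (r : R) :
    (L.bad r).card * (n + 2) ≤ n * b + (L.bad r).card * (4 * b) := by
  classical
  have h1 := bad_sum hC hb r
  have h2 : (∑ r' ∈ L.bad r, (n + 2)) ≤
      ∑ r' ∈ L.bad r, ((Finset.univ.filter (fun c => ¬ L.G r r' c)).card + 4 * b) := by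
    apply Finset.sum_le_sum
    intro r' hr'
    rw [mem_bad] at hr'
    unfold Good at hr'
    push Not at hr'
    obtain ⟨y, hy⟩ := hr'
    exact bad_lower hR hb r r' y hy
  rw [Finset.sum_const, Finset.sum_add_distrib, Finset.sum_const, smul_eq_mul, smul_eq_mul] at h2
  have h3 : (∑ r' ∈ L.bad r, (Finset.univ.filter (fun c => ¬ L.G r r' c)).card) ≤
      ∑ r', (Finset.univ.filter (fun c => ¬ L.G r r' c)).card :=
    Finset.sum_le_sum_of_subset (Finset.subset_univ _)
  have h4 : (∑ r', (Finset.univ.filter (fun c => ¬ L.G r r' c)).card) ≤ n * b := h1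
  omega

/-- a good pair of distinct rows forces even order -/
theorem even_of_good {r i : R} (h : L.Good r i) (hne : r ≠ i) : 2 ∣ Fintype.card C := by
  classical
  have h1 : (L.pi r i) ^ 2 = 1 := by
    rw [pow_two]; ext x; exact h x
  have h2 := Equiv.Perm.two_dvd_card_support h1
  have h3 : (L.pi r i).support = Finset.univ := by
    ext x
    simp only [Equiv.Perm.mem_support, Finset.mem_univ, iff_true]
    intro hx
    apply hne
    apply L.pi_row_inj (r := r) (c := x)
    rw [L.pi_self, hx]
  rw [h3, Finset.card_univ] at h2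
  exact h2

theorem four_dvd_aux {Q0 : Type} [DecidableEq Q0] (f g : Q0 → Q0) (ff : ∀ x, f (f x) = x)
    (gg : ∀ x, g (g x) = x) (fg : ∀ x, f (g x) = g (f x)) (P : Q0 → Prop)
    (f0 : ∀ x, P x → f x ≠ x) (g0 : ∀ x, P x → g x ≠ x) (h0 : ∀ x, P x → f x ≠ g x) :
    ∀ (m : ℕ) (T : Finset Q0), T.card = m → (∀ x ∈ T, P x) → (∀ x ∈ T, f x ∈ T) →
      (∀ x ∈ T, g x ∈ T) → 4 ∣ m := by
  intro m
  induction m using Nat.strong_induction_on with
  | _ m ih =>
    intro T hT hP hf hg
    rcases T.eq_empty_or_nonempty with h | ⟨x, hx⟩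
    · rw [h, Finset.card_empty] at hT
      rw [← hT]; exact dvd_zero 4
    · set Q : Finset Q0 := {x, f x, g x, f (g x)} with hQ
      have px := hP x hx
      have pg := hP (g x) (hg x hx)
      have hQc : Q.card = 4 := by
        rw [hQ]
        rw [Finset.card_insert_of_notMem, Finset.card_insert_of_notMem,
          Finset.card_insert_of_notMem, Finset.card_singleton]
        · simp only [Finset.mem_singleton]
          intro h; exact f0 (g x) pg h.symm
        · simp only [Finset.mem_insert, Finset.mem_singleton, not_or]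
          refine ⟨h0 x px, ?_⟩
          intro h
          have := congrArg f h
          rw [ff, ff] at this
          exact g0 x px this.symm
        · simp only [Finset.mem_insert, Finset.mem_singleton, not_or]
          refine ⟨fun h => f0 x px h.symm, fun h => g0 x px h.symm, ?_⟩
          intro h
          have := congrArg f h
          rw [ff] at this
          exact h0 x px this
      have hsub : Q ⊆ T := by
        intro z hz
        rw [hQ] at hz
        simp only [Finset.mem_insert, Finset.mem_singleton] at hz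
        rcases hz with rfl | rfl | rfl | rfl
        · exact hx
        · exact hf _ hx
        · exact hg _ hx
        · exact hf _ (hg _ hx)
      have hQf : ∀ z, f z ∈ Q → z ∈ Q := by
        intro z hz
        have hz' : ∀ w, w ∈ Q → f w ∈ Q := by
          intro w hw
          rw [hQ] at hw ⊢
          simp only [Finset.mem_insert, Finset.mem_singleton] at hw ⊢
          rcases hw with rfl | rfl | rfl | rfl
          · exact Or.inr (Or.inl rfl)
          · left; exact ff _
          · exact Or.inr (Or.inr (Or.inr rfl))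
          · right; right; left; exact ff _
        have := hz' _ hz
        rwa [ff] at this
      have hQg : ∀ z, g z ∈ Q → z ∈ Q := by
        intro z hz
        have hz' : ∀ w, w ∈ Q → g w ∈ Q := by
          intro w hw
          rw [hQ] at hw ⊢
          simp only [Finset.mem_insert, Finset.mem_singleton] at hw ⊢
          rcases hw with rfl | rfl | rfl | rfl
          · exact Or.inr (Or.inr (Or.inl rfl))
          · right; right; right; exact (fg _).symm
          · left; exact gg _
          · right; left; rw [← fg, gg]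
        have := hz' _ hz
        rwa [gg] at this
      have hc : (T \ Q).card = m - 4 := by
        rw [Finset.card_sdiff_of_subset hsub, hT, hQc]
      have hm4 : 4 ≤ m := by
        rw [← hT, ← hQc]; exact Finset.card_le_card hsub
      have := ih (m - 4) (by omega) (T \ Q) hc
        (fun z hz => hP z (Finset.mem_sdiff.1 hz).1)
        (fun z hz => by
          rw [Finset.mem_sdiff] at hz ⊢
          exact ⟨hf _ hz.1, fun h => hz.2 (hQf _ h)⟩)
        (fun z hz => by
          rw [Finset.mem_sdiff] at hz ⊢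
          exact ⟨hg _ hz.1, fun h => hz.2 (hQg _ h)⟩)
      omega

theorem four_dvd {r i j : R} (hi : L.Good r i) (hj : L.Good r j) (hij : L.Good i j)
    (h1 : r ≠ i) (h2 : r ≠ j) (h3 : i ≠ j) : 4 ∣ Fintype.card C := by
  classical
  apply four_dvd_aux (fun x => L.pi r i x) (fun x => L.pi r j x) (L.good_inv hi) (L.good_inv hj)
    (fun x => L.comm hi hj hij x) (fun _ => True) _ _ _ _ Finset.univ Finset.card_univ
    (fun _ _ => trivial) (fun _ _ => Finset.mem_univ _) (fun _ _ => Finset.mem_univ _)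
  · intro x _ h
    exact h1 (L.pi_row_inj (r := r) (c := x) (by rw [L.pi_self]; exact h.symm))
  · intro x _ h
    exact h2 (L.pi_row_inj (r := r) (c := x) (by rw [L.pi_self]; exact h.symm))
  · intro x _ h
    exact h3 (L.pi_row_inj h)

/-- odd order -/
theorem odd_bound {n b : ℕ} (hR : Fintype.card R = n) (hC : Fintype.card C = n)
    (hb : ∀ r c, (L.B r c).card ≤ b) (hn : 1 < n) (hodd : ¬ 2 ∣ n) : n < 5 * b := by
  classical
  by_contra hcon
  push Not at hcon
  have hRne : Nonempty R := by
    rw [← Fintype.card_pos_iff, hR]; omega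
  obtain ⟨r⟩ := hRne
  have h1 := notgood_bound hR hC hb r
  have h2 : L.bad r = Finset.univ.erase r := by
    ext i
    rw [mem_bad, Finset.mem_erase]
    constructor
    · intro h
      refine ⟨?_, Finset.mem_univ _⟩
      rintro rfl
      exact h (L.good_self _)
    · rintro ⟨h, _⟩ hg
      apply hodd
      rw [← hC]
      exact even_of_good hg (fun h' => h h'.symm)
  have h3 : (L.bad r).card = n - 1 := by
    rw [h2, Finset.card_erase_of_mem (Finset.mem_univ _), Finset.card_univ, hR]
  rw [h3] at h1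
  obtain ⟨m, rfl⟩ : ∃ m, n = m + 1 := ⟨n - 1, by omega⟩
  rw [Nat.add_sub_cancel] at h1
  -- m (m+3) ≤ (m+1) b + 4 m b, 5 b ≤ m + 1, m ≥ 1
  nlinarith

/-- order two modulo four -/
theorem two_mod_four_bound {n b : ℕ} (hR : Fintype.card R = n) (hC : Fintype.card C = n)
    (hb : ∀ r c, (L.B r c).card ≤ b) (hn : 4 < n) (hodd : ¬ 4 ∣ n) : n < 6 * b := by
  classical
  by_contra hcon
  push Not at hcon
  have hRne : Nonempty R := by
    rw [← Fintype.card_pos_iff, hR]; omega
  obtain ⟨r⟩ := hRne
  have h1 := notgood_bound hR hC hb r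
  by_cases hg : ∃ i, i ≠ r ∧ L.Good r i
  · obtain ⟨i, hne, hgi⟩ := hg
    have h1' := notgood_bound hR hC hb i
    have h2 : n ≤ (L.bad r).card + (L.bad i).card + 2 := by
      have hcov : (Finset.univ : Finset R) ⊆ (L.bad r ∪ L.bad i) ∪ {r, i} := by
        intro j _
        by_contra hj
        simp only [Finset.mem_union, Finset.mem_insert, Finset.mem_singleton, not_or,
          mem_bad, not_not] at hj
        obtain ⟨⟨hj1, hj2⟩, hj3, hj4⟩ := hj
        apply hodd
        rw [← hC]
        exact four_dvd hgi hj1 hj2 (fun h => hne h.symm) (fun h => hj3 h.symm)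
          (fun h => hj4 h.symm)
      have h5 := Finset.card_le_card hcov
      have h6 := Finset.card_union_le (L.bad r ∪ L.bad i) {r, i}
      have h7 := Finset.card_union_le (L.bad r) (L.bad i)
      have h8 : ({r, i} : Finset R).card ≤ 2 := Finset.card_le_two
      rw [Finset.card_univ, hR] at h5
      omega
    have hx : ((L.bad r).card + (L.bad i).card) * (n + 2) ≤
        2 * (n * b) + ((L.bad r).card + (L.bad i).card) * (4 * b) := by nlinarith
    set s := (L.bad r).card + (L.bad i).card with hs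
    -- s ≥ n - 2, s (n + 2 - 4 b) ≤ 2 n b
    obtain ⟨m, rfl⟩ : ∃ m, n = m + 2 := ⟨n - 2, by omega⟩
    have hsm : m ≤ s := by omega
    zify at hx hsm hcon hn
    have p1 : 0 ≤ ((s : ℤ) - m) * ((m : ℤ) + 4 - 4 * b) :=
      mul_nonneg (by linarith) (by linarith)
    have p2 : 0 ≤ ((m : ℤ) + 2 - 6 * b) * (6 * m + 4) :=
      mul_nonneg (by linarith) (by positivity)
    nlinarith
  · push Not at hg
    have h2 : L.bad r = Finset.univ.erase r := by
      ext i
      rw [mem_bad, Finset.mem_erase]
      constructor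
      · intro h
        refine ⟨?_, Finset.mem_univ _⟩
        rintro rfl
        exact h (L.good_self _)
      · rintro ⟨h, _⟩
        exact hg i h
    have h3 : (L.bad r).card = n - 1 := by
      rw [h2, Finset.card_erase_of_mem (Finset.mem_univ _), Finset.card_univ, hR]
    rw [h3] at h1
    obtain ⟨m, rfl⟩ : ∃ m, n = m + 1 := ⟨n - 1, by omega⟩
    rw [Nat.add_sub_cancel] at h1
    nlinarith

end finpart3

end Sq

/-! ### latin squares on `Fin n` -/

/-- `L` is a latin square of order `n` (rows, columns and symbols are `Fin n`). -/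
def IsLatin {n : ℕ} (L : Fin n → Fin n → Fin n) : Prop :=
  (∀ r, Function.Injective (L r)) ∧ (∀ c, Function.Injective (fun r => L r c))

/-- The intercalates through the cell `(r,c)`, each given by its opposite corner `(r',c')`. -/
def intercalatesAt {n : ℕ} (L : Fin n → Fin n → Fin n) (r c : Fin n) : Finset (Fin n × Fin n) :=
  Finset.univ.filter (fun p => p.1 ≠ r ∧ p.2 ≠ c ∧ L r c = L p.1 p.2 ∧ L r p.2 = L p.1 c)

/-- every cell of `L` lies in exactly `h` intercalates -/
def IsHomogeneous {n : ℕ} (h : ℕ) (L : Fin n → Fin n → Fin n) : Prop :=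
  ∀ r c, (intercalatesAt L r c).card = h

noncomputable def ofLatin {n : ℕ} (L : Fin n → Fin n → Fin n) (hL : IsLatin L) :
    Sq (Fin n) (Fin n) (Fin n) where
  p r := Equiv.ofBijective (L r) (Finite.injective_iff_bijective.1 (hL.1 r))
  col c := Finite.injective_iff_bijective.1 (hL.2 c)

lemma ofLatin_p {n : ℕ} (L : Fin n → Fin n → Fin n) (hL : IsLatin L) (r c : Fin n) :
    (ofLatin L hL).p r c = L r c := rfl

lemma card_B {n : ℕ} (L : Fin n → Fin n → Fin n) (hL : IsLatin L) (r c : Fin n) :
    (intercalatesAt L r c).card + ((ofLatin L hL).B r c).card + 1 = n := by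
  classical
  set M := ofLatin L hL with hM
  have h1 : (intercalatesAt L r c).card =
      ((Finset.univ.erase r).filter (fun r' => M.G r r' c)).card := by
    apply Finset.card_bij (fun p _ => p.1)
    · rintro ⟨r', c'⟩ hp
      unfold intercalatesAt at hp
      rw [Finset.mem_filter] at hp
      obtain ⟨_, h1, h2, h3, h4⟩ := hp
      dsimp only at h1 h2 h3 h4 ⊢
      rw [Finset.mem_filter, Finset.mem_erase]
      refine ⟨⟨h1, Finset.mem_univ _⟩, ?_⟩
      have h5 : M.pi r r' c = c' := by
        rw [Sq.pi_eq_iff]; exact h3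
      rw [Sq.G_iff, h5]
      exact h4
    · rintro ⟨r1, c1⟩ hp1 ⟨r2, c2⟩ hp2 h
      dsimp only at h
      subst h
      unfold intercalatesAt at hp1 hp2
      rw [Finset.mem_filter] at hp1 hp2
      have := hp1.2.2.2.1
      rw [hp2.2.2.2.1] at this
      dsimp only at this
      rw [hL.1 _ this]
    · intro r' hr'
      rw [Finset.mem_filter, Finset.mem_erase] at hr'
      obtain ⟨⟨h1, _⟩, h2⟩ := hr'
      refine ⟨(r', M.pi r r' c), ?_, rfl⟩
      unfold intercalatesAt
      rw [Finset.mem_filter]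
      refine ⟨Finset.mem_univ _, h1, ?_, ?_, ?_⟩
      · intro h
        dsimp only at h
        apply h1
        apply M.pi_row_inj (r := r) (c := c)
        rw [h, M.pi_self]
      · exact (M.p_pi r r' c).symm
      · exact (M.G_iff r r' c).1 h2
  have h2 : M.B r c = (Finset.univ.erase r).filter (fun r' => ¬ M.G r r' c) := by
    ext r'
    rw [Sq.mem_B, Finset.mem_filter, Finset.mem_erase]
    constructor
    · intro h
      refine ⟨⟨?_, Finset.mem_univ _⟩, h⟩
      rintro rfl
      exact h (M.G_self _ _)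
    · intro h; exact h.2
  rw [h1, h2, Finset.card_filter_add_card_filter_not, Finset.card_erase_of_mem (Finset.mem_univ _),
    Finset.card_univ, Fintype.card_fin]
  have : 0 < n := Nat.pos_of_ne_zero (by rintro rfl; exact r.elim0)
  omega

lemma mkHyp {n h : ℕ} (L : Fin n → Fin n → Fin n) (hL : IsLatin L)
    (hh : ∀ r c, h ≤ (intercalatesAt L r c).card) (hn : 0 < n)
    (h8 : 7 * n ≤ 8 * (h + 1)) : (ofLatin L hL).Hyp n (n - 1 - h) where
  hR := Fintype.card_fin n
  hC := Fintype.card_fin n
  hb r c := by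
    have := card_B L hL r c
    have := hh r c
    omega
  h8 := by
    have h1 := card_B L hL ⟨0, hn⟩ ⟨0, hn⟩
    have h2 := hh ⟨0, hn⟩ ⟨0, hn⟩
    omega
  hn := hn

theorem rigid {n h : ℕ} (L : Fin n → Fin n → Fin n) (hL : IsLatin L)
    (hh : ∀ r c, h ≤ (intercalatesAt L r c).card) (hn : 0 < n)
    (h8 : 7 * n < 8 * (h + 1)) : IsHomogeneous (n - 1) L ∧ ∃ a, n = 2 ^ a := by
  classical
  have H := mkHyp L hL hh hn h8.le
  have h1 := card_B L hL ⟨0, hn⟩ ⟨0, hn⟩
  have h2 := hh ⟨0, hn⟩ ⟨0, hn⟩
  have hall := H.strict (by omega)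
  constructor
  · intro r c
    have h3 := card_B L hL r c
    have h4 : (ofLatin L hL).B r c = ∅ := by
      ext r'
      rw [Sq.mem_B]
      simp only [Finset.notMem_empty, iff_false, not_not]
      exact hall r r' c
    rw [h4, Finset.card_empty] at h3
    omega
  · have : Nonempty (Fin n) := ⟨⟨0, hn⟩⟩
    obtain ⟨s, hs⟩ := Sq.allgood_pow hall
    rw [Fintype.card_fin] at hs
    exact ⟨s, hs⟩

theorem forward {n h : ℕ} (L : Fin n → Fin n → Fin n) (hL : IsLatin L)
    (hh : IsHomogeneous h L) (hn : 0 < n) (h8 : 7 * n ≤ 8 * (h + 1)) :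
    ∃ a, n = 2 ^ a ∧ (h + 1 = n ∨ (4 ≤ a ∧ 8 * (h + 1) = 7 * n)) := by
  classical
  have hh' : ∀ r c, h ≤ (intercalatesAt L r c).card := fun r c => (hh r c).ge
  rcases Nat.lt_or_ge (7 * n) (8 * (h + 1)) with hs | hs
  · obtain ⟨h1, a, ha⟩ := rigid L hL hh' hn hs
    refine ⟨a, ha, Or.inl ?_⟩
    have h2 := h1 ⟨0, hn⟩ ⟨0, hn⟩
    have h3 := hh ⟨0, hn⟩ ⟨0, hn⟩
    omega
  · have H := mkHyp L hL hh' hn h8
    have h1 := card_B L hL ⟨0, hn⟩ ⟨0, hn⟩
    rw [hh] at h1
    have hB : ∀ r c, ((ofLatin L hL).B r c).card = n - 1 - h := by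
      intro r c
      have h3 := card_B L hL r c
      rw [hh] at h3
      omega
    have HE : Sq.HypE (ofLatin L hL) n (n - 1 - h) :=
      { toHyp := H
        hcard := fun r => by rw [H.bad_eq r ⟨0, hn⟩]; exact hB r _
        h8e := by omega }
    obtain ⟨s, hs2⟩ := HE.pow
    have hne1 : n - 1 - h ≠ 1 := by
      rw [← hB ⟨0, hn⟩ ⟨0, hn⟩]
      exact Sq.B_card_ne_one _ _
    have h8e := HE.h8e
    refine ⟨s + 3, ?_, Or.inr ⟨?_, ?_⟩⟩
    · rw [h8e, hs2, pow_add]; ring
    · have : s ≠ 0 := by
        rintro rfl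
        rw [pow_zero] at hs2
        exact hne1 hs2
      omega
    · omega

theorem odd_part {n h : ℕ} (L : Fin n → Fin n → Fin n) (hL : IsLatin L)
    (hh : ∀ r c, h ≤ (intercalatesAt L r c).card) (hn : 1 < n) (hodd : n % 2 = 1) :
    5 * (h + 1) < 4 * n := by
  classical
  have h1 := card_B L hL ⟨0, by omega⟩ ⟨0, by omega⟩
  have h2 := hh ⟨0, by omega⟩ ⟨0, by omega⟩
  have h3 : ∀ r c, ((ofLatin L hL).B r c).card ≤ n - 1 - h := by
    intro r c
    have := card_B L hL r c
    have := hh r c
    omega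
  have := Sq.odd_bound (Fintype.card_fin n) (Fintype.card_fin n) h3 hn (by omega)
  omega

theorem two_mod_four_part {n h : ℕ} (L : Fin n → Fin n → Fin n) (hL : IsLatin L)
    (hh : ∀ r c, h ≤ (intercalatesAt L r c).card) (hn : 2 < n) (hodd : n % 4 = 2) :
    6 * (h + 1) < 5 * n := by
  classical
  have h1 := card_B L hL ⟨0, by omega⟩ ⟨0, by omega⟩
  have h2 := hh ⟨0, by omega⟩ ⟨0, by omega⟩
  have h3 : ∀ r c, ((ofLatin L hL).B r c).card ≤ n - 1 - h := by
    intro r c
    have := card_B L hL r c
    have := hh r c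
    omega
  have := Sq.two_mod_four_bound (Fintype.card_fin n) (Fintype.card_fin n) h3 (by omega) (by omega)
  omega

/-! ### existence -/

/-- number of corners, including the trivial one -/
def cnt {α : Type} [Fintype α] [DecidableEq α] (L : α → α → α) (r c : α) : ℕ :=
  (Finset.univ.filter (fun p : α × α => L r c = L p.1 p.2 ∧ L r p.2 = L p.1 c)).card

lemma cnt_eq {n : ℕ} (L : Fin n → Fin n → Fin n) (hL : IsLatin L) (r c : Fin n) :
    cnt L r c = (intercalatesAt L r c).card + 1 := by
  classical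
  unfold cnt intercalatesAt
  have h : (Finset.univ.filter (fun p : Fin n × Fin n => L r c = L p.1 p.2 ∧ L r p.2 = L p.1 c)) =
      insert (r, c) (Finset.univ.filter (fun p : Fin n × Fin n =>
        p.1 ≠ r ∧ p.2 ≠ c ∧ L r c = L p.1 p.2 ∧ L r p.2 = L p.1 c)) := by
    ext ⟨r', c'⟩
    simp only [Finset.mem_filter, Finset.mem_univ, true_and, Finset.mem_insert, Prod.mk.injEq]
    constructor
    · rintro ⟨h1, h2⟩
      by_cases hr : r' = r
      · left
        subst hr
        exact ⟨rfl, (hL.1 _ h1).symm⟩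
      · by_cases hc : c' = c
        · subst hc
          exact absurd (hL.2 _ h1).symm hr
        · exact Or.inr ⟨hr, hc, h1, h2⟩
    · rintro (⟨rfl, rfl⟩ | ⟨_, _, h1, h2⟩)
      · exact ⟨rfl, rfl⟩
      · exact ⟨h1, h2⟩
  rw [h, Finset.card_insert_of_notMem]
  simp

/-- there is a latin square of order `n` with all counts equal to `k` -/
def HasSq (n k : ℕ) : Prop :=
  ∃ L : Fin n → Fin n → Fin n, IsLatin L ∧ ∀ r c, cnt L r c = k

lemma HasSq.mul {n1 n2 k1 k2 : ℕ} (h1 : HasSq n1 k1) (h2 : HasSq n2 k2) :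
    HasSq (n1 * n2) (k1 * k2) := by
  classical
  obtain ⟨L1, hL1, c1⟩ := h1
  obtain ⟨L2, hL2, c2⟩ := h2
  let e : Fin n1 × Fin n2 ≃ Fin (n1 * n2) := finProdFinEquiv
  refine ⟨fun r c => e (L1 (e.symm r).1 (e.symm c).1, L2 (e.symm r).2 (e.symm c).2), ⟨?_, ?_⟩, ?_⟩
  · intro r c c' h
    have h1 := e.injective h
    rw [Prod.mk.injEq] at h1
    have h2 := hL1.1 _ h1.1
    have h3 := hL2.1 _ h1.2
    exact e.symm.injective (Prod.ext h2 h3)
  · intro c r r' h
    have h1 := e.injective h
    rw [Prod.mk.injEq] at h1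
    have h2 := hL1.2 _ h1.1
    have h3 := hL2.2 _ h1.2
    exact e.symm.injective (Prod.ext h2 h3)
  · intro r c
    rw [← c1 (e.symm r).1 (e.symm c).1, ← c2 (e.symm r).2 (e.symm c).2]
    unfold cnt
    rw [← Finset.card_product]
    symm
    apply Finset.card_bij (fun q _ => (e (q.1.1, q.2.1), e (q.1.2, q.2.2)))
    · rintro ⟨⟨a, b⟩, ⟨c, d⟩⟩ hq
      rw [Finset.mem_product, Finset.mem_filter, Finset.mem_filter] at hq
      obtain ⟨⟨_, q1, q2⟩, ⟨_, q3, q4⟩⟩ := hq
      rw [Finset.mem_filter]
      refine ⟨Finset.mem_univ _, ?_, ?_⟩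
      · simp only [Equiv.symm_apply_apply]
        rw [q1, q3]
      · simp only [Equiv.symm_apply_apply]
        rw [q2, q4]
    · rintro ⟨⟨a, b⟩, ⟨c, d⟩⟩ _ ⟨⟨a', b'⟩, ⟨c', d'⟩⟩ _ h
      rw [Prod.mk.injEq] at h
      have h1 := e.injective h.1
      have h2 := e.injective h.2
      dsimp only at h1 h2
      rw [Prod.mk.injEq] at h1 h2
      obtain ⟨rfl, rfl⟩ := h1
      obtain ⟨rfl, rfl⟩ := h2
      rfl
    · rintro ⟨r', c'⟩ hp
      rw [Finset.mem_filter] at hp
      obtain ⟨_, q1, q2⟩ := hp
      have h1 := e.injective q1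
      have h2 := e.injective q2
      rw [Prod.mk.injEq] at h1 h2
      refine ⟨(((e.symm r').1, (e.symm c').1), ((e.symm r').2, (e.symm c').2)), ?_, ?_⟩
      · rw [Finset.mem_product, Finset.mem_filter, Finset.mem_filter]
        exact ⟨⟨Finset.mem_univ _, h1.1, h2.1⟩, ⟨Finset.mem_univ _, h1.2, h2.2⟩⟩
      · simp

lemma hasSq_one : HasSq 1 1 := ⟨fun _ _ => 0, by unfold IsLatin; decide, by decide⟩

lemma hasSq_two : HasSq 2 2 := ⟨fun r c => r + c, by unfold IsLatin; decide, by decide⟩

/-- the cubic function giving the exceptional square -/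
def cub (x y : ℕ) : ℕ :=
  ((x / 2 % 2) * (x / 4 % 2) * (y / 8 % 2) + (x / 2 % 2) * (x / 8 % 2) * (y / 4 % 2) +
    (x / 4 % 2) * (x / 8 % 2) * (y / 2 % 2)) % 2

/-- a 13-homogeneous latin square of order 16 -/
def L16 (x y : Fin 16) : Fin 16 :=
  ⟨(Nat.xor (Nat.xor x.val y.val) (cub x.val y.val)) % 16, Nat.mod_lt _ (by norm_num)⟩

lemma hasSq_sixteen : HasSq 16 14 := by
  refine ⟨L16, ⟨?_, ?_⟩, ?_⟩
  · decide +kernel
  · decide +kernel
  · decide +kernel

lemma hasSq_pow (a : ℕ) : HasSq (2 ^ a) (2 ^ a) := by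
  induction a with
  | zero => exact hasSq_one
  | succ a ih => rw [pow_succ]; exact ih.mul hasSq_two

lemma HasSq.homog {n k : ℕ} (hk : HasSq n k) (h : ℕ) (hh : h + 1 = k) :
    ∃ L : Fin n → Fin n → Fin n, IsLatin L ∧ IsHomogeneous h L := by
  obtain ⟨L, hL, hc⟩ := hk
  refine ⟨L, hL, fun r c => ?_⟩
  have := cnt_eq L hL r c
  rw [hc] at this
  omega

theorem backward {n h a : ℕ} (hn : n = 2 ^ a)
    (hh : h + 1 = n ∨ (4 ≤ a ∧ 8 * (h + 1) = 7 * n)) :
    ∃ L : Fin n → Fin n → Fin n, IsLatin L ∧ IsHomogeneous h L := by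
  subst hn
  rcases hh with hh | ⟨ha, hh⟩
  · exact (hasSq_pow a).homog h hh
  · obtain ⟨m, rfl⟩ : ∃ m, a = 4 + m := ⟨a - 4, by omega⟩
    have h1 := hasSq_sixteen.mul (hasSq_pow m)
    have h2 : 16 * 2 ^ m = 2 ^ (4 + m) := by rw [pow_add]; norm_num
    rw [h2] at h1
    apply h1.homog h
    have h3 : 2 ^ (4 + m) = 16 * 2 ^ m := h2.symm
    omega

/-! ### block construction over elementary abelian quotients -/

section block
variable {G V : Type} [AddCommGroup G] [Fintype G] [DecidableEq G]
  [AddCommGroup V] [Fintype V] [DecidableEq V]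

/-- the block square -/
def blk (β : V → V → G → G) (r c : G × V) : G × V := (r.1 + β r.2 c.2 c.1, r.2 + c.2)

lemma blk_inj1 (β : V → V → G → G) (hβ : ∀ i j, Function.Injective (β i j)) (r : G × V) :
    Function.Injective (blk β r) := by
  rintro ⟨y, j⟩ ⟨y', j'⟩ h
  unfold blk at h
  rw [Prod.mk.injEq] at h
  obtain ⟨h1, h2⟩ := h
  dsimp only at h1 h2
  have h3 : j = j' := add_left_cancel h2
  subst h3
  have h4 := hβ _ _ (add_left_cancel h1)
  rw [h4]

lemma blk_inj2 (β : V → V → G → G) (c : G × V) :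
    Function.Injective (fun r => blk β r c) := by
  rintro ⟨x, i⟩ ⟨x', i'⟩ h
  unfold blk at h
  rw [Prod.mk.injEq] at h
  obtain ⟨h1, h2⟩ := h
  dsimp only at h1 h2
  have h3 : i = i' := add_right_cancel h2
  subst h3
  have h4 := add_right_cancel h1
  rw [h4]

lemma blk_cnt (hV : ∀ v : V, v + v = 0) (β : V → V → G → G) (x y : G) (i j : V) :
    cnt (blk β) (x, i) (y, j) =
      ∑ d : V, (Finset.univ.filter (fun y' : G =>
        β i (j + d) y' + β (i + d) (j + d) y' = β i j y + β (i + d) j y)).card := by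
  classical
  unfold cnt
  rw [← Finset.card_sigma]
  apply Finset.card_bij' (fun p _ => (⟨p.1.2 - i, p.2.1⟩ : Σ _ : V, G))
    (fun q _ => ((x + β i j y - β (i + q.1) (j + q.1) q.2, i + q.1), (q.2, j + q.1)))
  · rintro ⟨⟨x', i'⟩, ⟨y', j'⟩⟩ hp
    rw [Finset.mem_filter] at hp
    obtain ⟨_, h1, h2⟩ := hp
    unfold blk at h1 h2
    rw [Prod.mk.injEq] at h1 h2
    obtain ⟨a1, b1⟩ := h1
    obtain ⟨a2, b2⟩ := h2
    dsimp only at a1 b1 a2 b2
    have hi : i + (i' - i) = i' := by abel
    have hj : j + (i' - i) = j' := by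
      have e1 : j + (i' - i) = (i' + j) - i := by abel
      rw [e1, ← b2]
      abel
    rw [Finset.mem_sigma, Finset.mem_filter]
    refine ⟨Finset.mem_univ _, Finset.mem_univ _, ?_⟩
    dsimp only
    rw [hi, hj]
    -- a1 : x + β i j y = x' + β i' j' y'; a2 : x + β i j' y' = x' + β i' j y
    have e2 : (x + β i j y) + (x' + β i' j y) = (x' + β i' j' y') + (x + β i j' y') := by
      rw [a1, a2]
    have e3 : (x + x') + (β i j' y' + β i' j' y') = (x + x') + (β i j y + β i' j y) := by
      calc (x + x') + (β i j' y' + β i' j' y') = (x' + β i' j' y') + (x + β i j' y') := by abel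
        _ = (x + β i j y) + (x' + β i' j y) := e2.symm
        _ = _ := by abel
    exact add_left_cancel e3
  · rintro ⟨d, y'⟩ hq
    rw [Finset.mem_sigma, Finset.mem_filter] at hq
    obtain ⟨_, _, h⟩ := hq
    dsimp only at h
    rw [Finset.mem_filter]
    refine ⟨Finset.mem_univ _, ?_, ?_⟩
    · unfold blk
      rw [Prod.mk.injEq]
      dsimp only
      constructor
      · abel
      · have : i + d + (j + d) = i + j + (d + d) := by abel
        rw [this, hV, add_zero]
    · unfold blk
      rw [Prod.mk.injEq]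
      dsimp only
      constructor
      · have e1 : x + β i j y - β (i + d) (j + d) y' + β (i + d) j y =
            x + (β i j y + β (i + d) j y) - β (i + d) (j + d) y' := by abel
        rw [e1, ← h]; abel
      · abel
  · rintro ⟨⟨x', i'⟩, ⟨y', j'⟩⟩ hp
    rw [Finset.mem_filter] at hp
    obtain ⟨_, h1, h2⟩ := hp
    unfold blk at h1 h2
    rw [Prod.mk.injEq] at h1 h2
    obtain ⟨a1, b1⟩ := h1
    obtain ⟨a2, b2⟩ := h2
    dsimp only at a1 b1 a2 b2
    have hi : i + (i' - i) = i' := by abel
    have hj : j + (i' - i) = j' := by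
      have e1 : j + (i' - i) = (i' + j) - i := by abel
      rw [e1, ← b2]
      abel
    dsimp only
    rw [hi, hj, a1]
    simp
  · rintro ⟨d, y'⟩ hq
    dsimp only
    simp

/-- transport to `Fin n` -/
lemma HasSq.of_type {α : Type} [Fintype α] [DecidableEq α] {n k : ℕ} (hα : Fintype.card α = n)
    (L : α → α → α) (h1 : ∀ r, Function.Injective (L r))
    (h2 : ∀ c, Function.Injective (fun r => L r c)) (h3 : ∀ r c, cnt L r c = k) : HasSq n k := by
  classical
  let e : α ≃ Fin n := Fintype.equivFinOfCardEq hα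
  refine ⟨fun r c => e (L (e.symm r) (e.symm c)), ⟨?_, ?_⟩, ?_⟩
  · intro r c c' h
    exact e.symm.injective (h1 _ (e.injective h))
  · intro c r r' h
    exact e.symm.injective (h2 _ (e.injective h))
  · intro r c
    rw [← h3 (e.symm r) (e.symm c)]
    unfold cnt
    symm
    apply Finset.card_bij (fun q _ => (e q.1, e q.2))
    · rintro ⟨a, b⟩ hq
      rw [Finset.mem_filter] at hq ⊢
      refine ⟨Finset.mem_univ _, ?_, ?_⟩
      · simp only [Equiv.symm_apply_apply]
        rw [hq.2.1]
      · simp only [Equiv.symm_apply_apply]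
        rw [hq.2.2]
    · rintro ⟨a, b⟩ _ ⟨a', b'⟩ _ h
      rw [Prod.mk.injEq] at h
      exact Prod.ext (e.injective h.1) (e.injective h.2)
    · rintro ⟨a, b⟩ hq
      rw [Finset.mem_filter] at hq
      refine ⟨(e.symm a, e.symm b), ?_, by simp⟩
      rw [Finset.mem_filter]
      exact ⟨Finset.mem_univ _, e.injective hq.2.1, e.injective hq.2.2⟩

end block

/-! ### family one: order `2k`, any divisor `t ≥ 2` of `k` -/

section fam1
variable (w k : ℕ) [NeZero k]

def resid (y : ZMod k) : ZMod k := ((y.val % w : ℕ) : ZMod k)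

def gam (y : ZMod k) : ZMod k := resid w k y + resid w k y - y

lemma resid_cast (hw : w ∣ k) (y : ZMod k) :
    ZMod.castHom hw (ZMod w) (resid w k y) = ZMod.castHom hw (ZMod w) y := by
  unfold resid
  rw [map_natCast]
  conv_rhs => rw [← ZMod.natCast_zmod_val y, map_natCast]
  rw [ZMod.natCast_eq_natCast_iff]
  exact Nat.mod_modEq _ _

lemma resid_eq_of_cast (hw : w ∣ k) (y y' : ZMod k)
    (h : ZMod.castHom hw (ZMod w) y = ZMod.castHom hw (ZMod w) y') :
    resid w k y = resid w k y' := by
  rw [← ZMod.natCast_zmod_val y, ← ZMod.natCast_zmod_val y', map_natCast, map_natCast,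
    ZMod.natCast_eq_natCast_iff] at h
  unfold resid
  have h' : y.val % w = y'.val % w := h
  rw [h']

lemma gam_inj (hw : w ∣ k) : Function.Injective (gam w k) := by
  intro y y' h
  have h1 : ZMod.castHom hw (ZMod w) (gam w k y) = ZMod.castHom hw (ZMod w) (gam w k y') := by
    rw [h]
  unfold gam at h1
  rw [map_sub, map_add, map_sub, map_add, resid_cast, resid_cast] at h1
  simp only [add_sub_cancel_right] at h1
  have h2 := resid_eq_of_cast w k hw y y' h1
  unfold gam at h
  rw [h2] at h
  exact sub_right_injective h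

lemma resid_double (t : ℕ) (ht : 2 ≤ t) (hk : k = w * t) (y y' : ZMod k) :
    resid w k y' + resid w k y' = resid w k y + resid w k y ↔ y'.val % w = y.val % w := by
  have hkpos : 0 < k := Nat.pos_of_ne_zero (NeZero.ne k)
  have hw : 0 < w := by
    rcases Nat.eq_zero_or_pos w with h | h
    · rw [h, zero_mul] at hk; omega
    · exact h
  constructor
  · intro h
    unfold resid at h
    rw [← Nat.cast_add, ← Nat.cast_add, ZMod.natCast_eq_natCast_iff'] at h
    have h1 : y'.val % w < w := Nat.mod_lt _ hw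
    have h2 : y.val % w < w := Nat.mod_lt _ hw
    have h3 : w * 2 ≤ k := by rw [hk]; exact Nat.mul_le_mul_left w ht
    rw [Nat.mod_eq_of_lt (show y'.val % w + y'.val % w < k by omega),
      Nat.mod_eq_of_lt (show y.val % w + y.val % w < k by omega)] at h
    omega
  · intro h
    unfold resid
    rw [h]

lemma fiber_card (t : ℕ) (hk : k = w * t) (a : ℕ) (ha : a < w) :
    (Finset.univ.filter (fun y' : ZMod k => y'.val % w = a)).card = t := by
  classical
  rw [← Finset.card_range t]
  symm
  have hlt : ∀ b, b < t → a + w * b < k := by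
    intro b hb
    have h1 : w * (b + 1) ≤ w * t := Nat.mul_le_mul_left w hb
    rw [← hk, mul_add, mul_one] at h1
    omega
  apply Finset.card_bij (fun b _ => ((a + w * b : ℕ) : ZMod k))
  · intro b hb
    rw [Finset.mem_range] at hb
    rw [Finset.mem_filter]
    refine ⟨Finset.mem_univ _, ?_⟩
    rw [ZMod.val_natCast_of_lt (hlt b hb), Nat.add_mul_mod_self_left, Nat.mod_eq_of_lt ha]
  · intro b hb b' hb' h
    rw [Finset.mem_range] at hb hb'
    have h1 := congrArg ZMod.val h
    rw [ZMod.val_natCast_of_lt (hlt b hb), ZMod.val_natCast_of_lt (hlt b' hb')] at h1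
    have h2 : w * b = w * b' := by omega
    exact Nat.eq_of_mul_eq_mul_left (by omega) h2
  · intro y hy
    rw [Finset.mem_filter] at hy
    have h1 := Nat.mod_add_div y.val w
    refine ⟨y.val / w, ?_, ?_⟩
    · rw [Finset.mem_range]
      have h3 : y.val < w * t := lt_of_lt_of_eq (ZMod.val_lt y) hk
      exact Nat.div_lt_of_lt_mul h3
    · rw [← hy.2, h1, ZMod.natCast_zmod_val]

lemma double_card (a : ZMod k) :
    (Finset.univ.filter (fun z : ZMod k => z + z = a + a)).card = if 2 ∣ k then 2 else 1 := by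
  classical
  have hkpos : 0 < k := Nat.pos_of_ne_zero (NeZero.ne k)
  have key : ∀ z : ZMod k, z + z = a + a ↔ (z - a = 0 ∨ 2 * (z - a).val = k) := by
    intro z
    rw [← ZMod.neg_eq_self_iff]
    constructor
    · intro h
      have : -(z - a) - (z - a) = 0 := by
        have e : -(z - a) - (z - a) = (a + a) - (z + z) := by abel
        rw [e, h, sub_self]
      exact sub_eq_zero.1 this
    · intro h
      have : (z + z) - (a + a) = 0 := by
        have e : (z + z) - (a + a) = (z - a) - (-(z - a)) := by abel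
        rw [e, h, sub_self]
      exact sub_eq_zero.1 this
  split_ifs with h2
  · obtain ⟨m, hm⟩ := h2
    have hset : Finset.univ.filter (fun z : ZMod k => z + z = a + a) =
        {a, a + ((m : ℕ) : ZMod k)} := by
      ext z
      rw [Finset.mem_filter, key, Finset.mem_insert, Finset.mem_singleton]
      constructor
      · rintro ⟨_, h | h⟩
        · left; exact sub_eq_zero.1 h
        · right
          have h3 : (z - a).val = m := by omega
          rw [← h3, ZMod.natCast_zmod_val]; abel
      · rintro (h | h)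
        · exact ⟨Finset.mem_univ _, Or.inl (sub_eq_zero.2 h)⟩
        · refine ⟨Finset.mem_univ _, Or.inr ?_⟩
          rw [h, add_sub_cancel_left, ZMod.val_natCast_of_lt (by omega)]
          exact hm.symm
    rw [hset, Finset.card_pair]
    intro h
    have h3 : ((m : ℕ) : ZMod k) = 0 := by
      have := h.symm
      simpa using this
    have h4 := congrArg ZMod.val h3
    rw [ZMod.val_natCast_of_lt (by omega), ZMod.val_zero] at h4
    omega
  · have hset : Finset.univ.filter (fun z : ZMod k => z + z = a + a) = {a} := by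
      ext z
      rw [Finset.mem_filter, key, Finset.mem_singleton]
      constructor
      · rintro ⟨_, h | h⟩
        · exact sub_eq_zero.1 h
        · exfalso; apply h2; exact ⟨_, h.symm⟩
      · intro h
        exact ⟨Finset.mem_univ _, Or.inl (sub_eq_zero.2 h)⟩
    rw [hset, Finset.card_singleton]

/-- the column relabelings -/
def bet (i _j : ZMod 2) (y : ZMod k) : ZMod k := if i = 0 then y else gam w k y

theorem hasSq_fam1 (t : ℕ) (ht : 2 ≤ t) (hk : k = w * t) :
    HasSq (2 * k) (t + if 2 ∣ k then 2 else 1) := by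
  classical
  have hkpos : 0 < k := Nat.pos_of_ne_zero (NeZero.ne k)
  have hw : 0 < w := by
    rcases Nat.eq_zero_or_pos w with h | h
    · rw [h, zero_mul] at hk; omega
    · exact h
  have hdvd : w ∣ k := ⟨t, hk⟩
  have hβ : ∀ i j, Function.Injective (bet w k i j) := by
    intro i j
    unfold bet
    split_ifs
    · exact fun a b h => h
    · exact gam_inj w k hdvd
  have hβ' : ∀ i j, Function.Bijective (bet w k i j) := fun i j =>
    Finite.injective_iff_bijective.1 (hβ i j)
  have hV : ∀ v : ZMod 2, v + v = 0 := by decide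
  apply HasSq.of_type (α := ZMod k × ZMod 2) (by
    rw [Fintype.card_prod, ZMod.card, ZMod.card, mul_comm]) (blk (bet w k))
    (blk_inj1 _ hβ) (blk_inj2 _)
  rintro ⟨x, i⟩ ⟨y, j⟩
  rw [blk_cnt hV]
  have hu : (Finset.univ : Finset (ZMod 2)) = {0, 1} := by decide
  rw [hu, Finset.sum_pair (by decide)]
  have c0 : (Finset.univ.filter (fun y' : ZMod k =>
      bet w k i (j + 0) y' + bet w k (i + 0) (j + 0) y' = bet w k i j y + bet w k (i + 0) j y)).card =
      if 2 ∣ k then 2 else 1 := by
    rw [← double_card k (bet w k i j y)]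
    apply Finset.card_bij (fun y' _ => bet w k i j y')
    · intro y' hy'
      rw [Finset.mem_filter] at hy' ⊢
      simp only [add_zero] at hy'
      exact ⟨Finset.mem_univ _, hy'.2⟩
    · intro y1 _ y2 _ h
      exact hβ i j h
    · intro z hz
      obtain ⟨y', rfl⟩ := (hβ' i j).2 z
      refine ⟨y', ?_, rfl⟩
      rw [Finset.mem_filter] at hz ⊢
      simp only [add_zero]
      exact ⟨Finset.mem_univ _, hz.2⟩
  have hsum : ∀ (jj : ZMod 2) (z : ZMod k), bet w k i jj z + bet w k (i + 1) jj z =
      resid w k z + resid w k z := by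
    intro jj z
    unfold bet gam
    have hi : ∀ a : ZMod 2, a = 0 ∨ a = 1 := by decide
    rcases hi i with rfl | rfl
    · rw [if_pos rfl, if_neg (by decide)]; abel
    · rw [if_neg (by decide), if_pos (by decide)]; abel
  have c1 : (Finset.univ.filter (fun y' : ZMod k =>
      bet w k i (j + 1) y' + bet w k (i + 1) (j + 1) y' = bet w k i j y + bet w k (i + 1) j y)).card =
      t := by
    have : (Finset.univ.filter (fun y' : ZMod k =>
      bet w k i (j + 1) y' + bet w k (i + 1) (j + 1) y' = bet w k i j y + bet w k (i + 1) j y)) =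
      Finset.univ.filter (fun y' : ZMod k => y'.val % w = y.val % w) := by
      ext y'
      rw [Finset.mem_filter, Finset.mem_filter, hsum, hsum, resid_double w k t ht hk]
    rw [this]
    exact fiber_card w k t hk _ (Nat.mod_lt _ hw)
  rw [c0, c1, add_comm]

end fam1

/-! ### family two: order `4q`, `h = 2` -/

section fam2
variable (q : ℕ) [NeZero q]

def sg (a : ZMod 2) : ZMod q := if a = 0 then 1 else -1
def mm (a : ZMod 2) : ZMod q := if a = 0 then 1 else 2
def ep (a : ZMod 2) : ZMod q := if a = 0 then 0 else 1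

lemma zmod2_cases (a : ZMod 2) : a = 0 ∨ a = 1 := by revert a; decide

lemma z10 : (1 : ZMod 2) ≠ 0 := by decide
lemma z11 : (1 : ZMod 2) + 1 = 0 := by decide

lemma sg_succ (a : ZMod 2) : sg q (a + 1) = - sg q a := by
  rcases zmod2_cases a with rfl | rfl
  · unfold sg; rw [zero_add, if_neg z10, if_pos rfl]
  · unfold sg; rw [z11, if_neg z10, if_pos rfl, neg_neg]

lemma mm_succ (a : ZMod 2) : mm q a + mm q (a + 1) = 3 := by
  rcases zmod2_cases a with rfl | rfl
  · unfold mm; rw [zero_add, if_neg z10, if_pos rfl]; norm_num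
  · unfold mm; rw [z11, if_neg z10, if_pos rfl]; norm_num

lemma mm_sub (a : ZMod 2) : mm q a - mm q (a + 1) = 1 ∨ mm q a - mm q (a + 1) = -1 := by
  rcases zmod2_cases a with rfl | rfl
  · right; unfold mm; rw [zero_add, if_neg z10, if_pos rfl]; norm_num
  · left; unfold mm; rw [z11, if_neg z10, if_pos rfl]; norm_num

lemma ep_sub (a : ZMod 2) : ep q (a + 1) - ep q a = 1 ∨ ep q (a + 1) - ep q a = -1 := by
  rcases zmod2_cases a with rfl | rfl
  · left; unfold ep; rw [zero_add, if_neg z10, if_pos rfl]; norm_num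
  · right; unfold ep; rw [z11, if_neg z10, if_pos rfl]; norm_num

/-- the multipliers `1, -1, 2, -2` and the shift -/
def bet2 (i j : ZMod 2 × ZMod 2) (y : ZMod q) : ZMod q :=
  sg q i.1 * mm q i.2 * y + ep q j.1

theorem hasSq_fam2 (hq : Nat.Coprime q 6) (h1 : 1 < q) : HasSq (4 * q) 3 := by
  classical
  have hc2 : Nat.Coprime 2 q := by
    have : Nat.Coprime q (2 * 3) := hq
    exact (Nat.Coprime.coprime_mul_right_right this).symm
  have hc3 : Nat.Coprime 3 q := by
    have : Nat.Coprime q (2 * 3) := hq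
    exact (Nat.Coprime.coprime_mul_left_right this).symm
  have u2 : IsUnit (2 : ZMod q) := by
    have := (ZMod.isUnit_iff_coprime 2 q).2 hc2
    simpa using this
  have u3 : IsUnit (3 : ZMod q) := by
    have := (ZMod.isUnit_iff_coprime 3 q).2 hc3
    simpa using this
  have hne2 : (2 : ZMod q) ≠ 0 := by
    intro h
    have : IsUnit (0 : ZMod q) := by rw [← h]; exact u2
    have h3 : (1 : ZMod q) = 0 := by
      rw [isUnit_zero_iff] at this; exact this.symm
    have : q ∣ 1 := by
      have h4 : ((1 : ℕ) : ZMod q) = 0 := by simpa using h3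
      exact (ZMod.natCast_eq_zero_iff 1 q).1 h4
    have := Nat.le_of_dvd one_pos this
    omega
  have inj_of : ∀ (u : ZMod q), IsUnit u → ∀ s : ZMod q, Function.Injective (fun y => u * y + s) := by
    intro u hu s y y' h
    exact hu.mul_left_cancel (add_right_cancel h)
  have uneg : IsUnit (-1 : ZMod q) := isUnit_one.neg
  have usg : ∀ a, IsUnit (sg q a) := by
    intro a; unfold sg; split_ifs
    · exact isUnit_one
    · exact uneg
  have umm : ∀ a, IsUnit (mm q a) := by
    intro a; unfold mm; split_ifs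
    · exact isUnit_one
    · exact u2
  have hβ : ∀ i j, Function.Injective (bet2 q i j) := by
    intro i j
    unfold bet2
    exact inj_of _ ((usg _).mul (umm _)) _
  have hV : ∀ v : ZMod 2 × ZMod 2, v + v = 0 := by decide
  apply HasSq.of_type (α := ZMod q × (ZMod 2 × ZMod 2)) (by
    rw [Fintype.card_prod, Fintype.card_prod, ZMod.card, ZMod.card, mul_comm])
    (blk (bet2 q)) (blk_inj1 _ hβ) (blk_inj2 _)
  rintro ⟨x, i⟩ ⟨y, j⟩
  rw [blk_cnt hV]
  have hu : (Finset.univ : Finset (ZMod 2 × ZMod 2)) = {(0,0), (1,0), (0,1), (1,1)} := by decide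
  rw [hu, Finset.sum_insert (by decide), Finset.sum_insert (by decide), Finset.sum_pair (by decide)]
  -- counting lemmas
  have one_sol : ∀ (u s v : ZMod q), IsUnit u →
      (Finset.univ.filter (fun y' : ZMod q => u * y' + s = v)).card = 1 := by
    intro u s v hu
    have hb : Function.Bijective (fun y' : ZMod q => u * y' + s) :=
      Finite.injective_iff_bijective.1 (inj_of u hu s)
    obtain ⟨y0, hy0⟩ := hb.2 v
    rw [Finset.card_eq_one]
    refine ⟨y0, ?_⟩
    ext y'
    rw [Finset.mem_filter, Finset.mem_singleton]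
    constructor
    · intro h; exact hb.1 (h.2.trans hy0.symm)
    · rintro rfl; exact ⟨Finset.mem_univ _, hy0⟩
  have key : ∀ (d : ZMod 2 × ZMod 2) (u s v : ZMod q),
      (∀ y', bet2 q i (j + d) y' + bet2 q (i + d) (j + d) y' = u * y' + s) →
      bet2 q i j y + bet2 q (i + d) j y = v →
      (Finset.univ.filter (fun y' : ZMod q =>
        bet2 q i (j + d) y' + bet2 q (i + d) (j + d) y' = bet2 q i j y + bet2 q (i + d) j y)).card =
      (Finset.univ.filter (fun y' : ZMod q => u * y' + s = v)).card := by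
    intro d u s v h1 h2
    congr 1
    ext y'
    rw [Finset.mem_filter, Finset.mem_filter, h1, h2]
  obtain ⟨i1, i2⟩ := i
  obtain ⟨j1, j2⟩ := j
  rw [key (0,0) (2 * (sg q i1 * mm q i2)) (2 * ep q j1) _ (by
      intro y'; unfold bet2; simp only [Prod.mk_add_mk, add_zero]; ring) rfl,
    key (1,0) 0 (2 * ep q (j1 + 1)) (2 * ep q j1) (by
      intro y'; unfold bet2; simp only [Prod.mk_add_mk, add_zero, sg_succ]; ring) (by
      unfold bet2; simp only [Prod.mk_add_mk, add_zero, sg_succ]; ring),
    key (0,1) (sg q i1 * 3) (2 * ep q j1) _ (by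
      intro y'; unfold bet2; simp only [Prod.mk_add_mk, add_zero]
      rw [← mm_succ q i2]; ring) rfl,
    key (1,1) (sg q i1 * (mm q i2 - mm q (i2 + 1))) (2 * ep q (j1 + 1)) _ (by
      intro y'; unfold bet2; simp only [Prod.mk_add_mk, sg_succ]; ring) rfl]
  rw [one_sol _ _ _ (u2.mul ((usg _).mul (umm _))), one_sol _ _ _ ((usg _).mul u3),
    one_sol _ _ _ ((usg _).mul (by
      rcases mm_sub q i2 with h | h
      · rw [h]; exact isUnit_one
      · rw [h]; exact uneg))]
  have hz : (Finset.univ.filter (fun y' : ZMod q =>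
      (0 : ZMod q) * y' + 2 * ep q (j1 + 1) = 2 * ep q j1)).card = 0 := by
    rw [Finset.card_eq_zero]
    ext y'
    rw [Finset.mem_filter]
    simp only [zero_mul, zero_add, Finset.notMem_empty, iff_false]
    rintro ⟨_, h⟩
    have h2 : 2 * (ep q (j1 + 1) - ep q j1) = 0 := by rw [mul_sub, h, sub_self]
    rcases ep_sub q j1 with h3 | h3
    · rw [h3, mul_one] at h2; exact hne2 h2
    · rw [h3, mul_neg, mul_one, neg_eq_zero] at h2; exact hne2 h2
  rw [hz]
  norm_num

end fam2

/-! ### divisibility -/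

theorem four_dvd_count {n h : ℕ} (L : Fin n → Fin n → Fin n) (hh : IsHomogeneous h L) :
    4 ∣ n * n * h := by
  classical
  set T : Finset ((Fin n × Fin n) × (Fin n × Fin n)) :=
    Finset.univ.filter (fun q => q.2 ∈ intercalatesAt L q.1.1 q.1.2) with hT
  have hcard : T.card = n * n * h := by
    have h1 : T.card = ∑ p : Fin n × Fin n, (intercalatesAt L p.1 p.2).card := by
      rw [hT, Finset.card_filter, Fintype.sum_prod_type]
      apply Finset.sum_congr rfl
      intro p _
      rw [← Finset.card_filter]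
      congr 1
      ext q
      simp
    rw [h1, Finset.sum_congr rfl (fun p _ => hh p.1 p.2), Finset.sum_const, Finset.card_univ,
      Fintype.card_prod, Fintype.card_fin, smul_eq_mul]
  have hmem : ∀ r c r' c', (((r, c), (r', c')) : (Fin n × Fin n) × (Fin n × Fin n)) ∈ T ↔
      (r' ≠ r ∧ c' ≠ c ∧ L r c = L r' c' ∧ L r c' = L r' c) := by
    intro r c r' c'
    rw [hT, Finset.mem_filter]
    unfold intercalatesAt
    rw [Finset.mem_filter]
    simp only [Finset.mem_univ, true_and]
  rw [← hcard]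
  apply Sq.four_dvd_aux (fun q => ((q.2.1, q.1.2), (q.1.1, q.2.2)))
    (fun q => ((q.1.1, q.2.2), (q.2.1, q.1.2))) (fun _ => rfl) (fun _ => rfl) (fun _ => rfl)
    (fun q => q.2.1 ≠ q.1.1 ∧ q.2.2 ≠ q.1.2) _ _ _ _ T rfl
  · rintro ⟨⟨r, c⟩, ⟨r', c'⟩⟩ hq
    rw [hmem] at hq
    exact ⟨hq.1, hq.2.1⟩
  · rintro ⟨⟨r, c⟩, ⟨r', c'⟩⟩ hq
    rw [hmem] at hq
    dsimp only
    rw [hmem]
    exact ⟨hq.1.symm, hq.2.1, hq.2.2.2.symm, hq.2.2.1.symm⟩
  · rintro ⟨⟨r, c⟩, ⟨r', c'⟩⟩ hq
    rw [hmem] at hq
    dsimp only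
    rw [hmem]
    exact ⟨hq.1, hq.2.1.symm, hq.2.2.2, hq.2.2.1⟩
  · rintro ⟨⟨r, c⟩, ⟨r', c'⟩⟩ hq h
    dsimp only at hq h
    rw [Prod.mk.injEq, Prod.mk.injEq] at h
    exact hq.1 h.1.1
  · rintro ⟨⟨r, c⟩, ⟨r', c'⟩⟩ hq h
    dsimp only at hq h
    rw [Prod.mk.injEq, Prod.mk.injEq] at h
    exact hq.2 h.1.2
  · rintro ⟨⟨r, c⟩, ⟨r', c'⟩⟩ hq h
    dsimp only at hq h
    rw [Prod.mk.injEq, Prod.mk.injEq] at h
    exact hq.1 h.1.1

/-- `(n,h)` is attained: there is an `h`-homogeneous latin square of order `n`. -/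
def Attained (n h : ℕ) : Prop :=
  ∃ L : Fin n → Fin n → Fin n, IsLatin L ∧ IsHomogeneous h L

theorem attained_fam1 (k t : ℕ) (hk : 1 ≤ k) (ht : 2 ≤ t) (hd : t ∣ k) :
    Attained (2 * k) (if 2 ∣ k then t + 1 else t) := by
  have : NeZero k := ⟨by omega⟩
  obtain ⟨w, hw⟩ := hd
  have h1 := hasSq_fam1 w k t ht (by rw [hw, mul_comm])
  apply h1.homog
  split_ifs <;> rfl

theorem attained_fam2 (q : ℕ) (hq : 1 < q) (hc : Nat.Coprime q 6) : Attained (4 * q) 2 := by
  have : NeZero q := ⟨by omega⟩
  exact (hasSq_fam2 q hc hq).homog 2 rfl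

theorem attained_mul (n₁ h₁ n₂ h₂ : ℕ) (a1 : Attained n₁ h₁) (a2 : Attained n₂ h₂) :
    Attained (n₁ * n₂) ((h₁ + 1) * (h₂ + 1) - 1) := by
  obtain ⟨L1, hL1, c1⟩ := a1
  obtain ⟨L2, hL2, c2⟩ := a2
  have b1 : HasSq n₁ (h₁ + 1) := ⟨L1, hL1, fun r c => by rw [cnt_eq L1 hL1, c1]⟩
  have b2 : HasSq n₂ (h₂ + 1) := ⟨L2, hL2, fun r c => by rw [cnt_eq L2 hL2, c2]⟩
  apply (b1.mul b2).homog
  have : 0 < (h₁ + 1) * (h₂ + 1) := by positivity
  omega

theorem attained_every (h : ℕ) : ∃ n, 1 < n ∧ Attained n h := by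
  rcases Nat.lt_or_ge h 3 with h3 | h3
  · interval_cases h
    · refine ⟨3, by norm_num, ?_⟩
      have : HasSq 3 1 := ⟨fun r c => r + c, by unfold IsLatin; decide, by decide⟩
      exact this.homog 0 rfl
    · exact ⟨2, by norm_num, hasSq_two.homog 1 rfl⟩
    · exact ⟨4 * 5, by norm_num, attained_fam2 5 (by norm_num) (by decide)⟩
  · rcases Nat.even_or_odd h with he | ho
    · obtain ⟨m, hm⟩ := he
      refine ⟨2 * (2 * (h - 1)), by omega, ?_⟩
      have h1 := attained_fam1 (2 * (h - 1)) (h - 1) (by omega) (by omega) ⟨2, by ring⟩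
      rw [if_pos ⟨h - 1, rfl⟩] at h1
      have : h - 1 + 1 = h := by omega
      rw [this] at h1
      exact h1
    · refine ⟨2 * h, by omega, ?_⟩
      have h1 := attained_fam1 h h (by omega) (by omega) dvd_rfl
      rw [if_neg] at h1
      · exact h1
      · obtain ⟨m, hm⟩ := ho
        omega

end HLS

open HLS in
/-- The spectrum of homogeneous latin squares: complete answer in the range `8 (h + 1) ≥ 7 n`,
a rigidity statement, sharper bounds for orders not divisible by four, and existence families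
which show that every `h` occurs. -/
theorem result :
    (∀ n h : ℕ, 1 ≤ n → h + 1 ≤ n → 7 * n ≤ 8 * (h + 1) →
      (Attained n h ↔ ∃ a, n = 2 ^ a ∧ (h + 1 = n ∨ (4 ≤ a ∧ 8 * (h + 1) = 7 * n)))) ∧
    (∀ (n h : ℕ) (L : Fin n → Fin n → Fin n), 1 ≤ n → IsLatin L →
      (∀ r c, h ≤ (intercalatesAt L r c).card) → 7 * n < 8 * (h + 1) →
      IsHomogeneous (n - 1) L ∧ ∃ a, n = 2 ^ a) ∧
    (∀ (n h : ℕ) (L : Fin n → Fin n → Fin n), 1 < n → n % 2 = 1 → IsLatin L →
      (∀ r c, h ≤ (intercalatesAt L r c).card) → 5 * (h + 1) < 4 * n) ∧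
    (∀ (n h : ℕ) (L : Fin n → Fin n → Fin n), 2 < n → n % 4 = 2 → IsLatin L →
      (∀ r c, h ≤ (intercalatesAt L r c).card) → 6 * (h + 1) < 5 * n) ∧
    (∀ k t : ℕ, 1 ≤ k → 2 ≤ t → t ∣ k → Attained (2 * k) (if 2 ∣ k then t + 1 else t)) ∧
    (∀ q : ℕ, 1 < q → Nat.Coprime q 6 → Attained (4 * q) 2) ∧
    (∀ h : ℕ, ∃ n, 1 < n ∧ Attained n h) := by
  refine ⟨?_, ?_, ?_, ?_, attained_fam1, attained_fam2, attained_every⟩
  · intro n h hn hle h8
    constructor
    · rintro ⟨L, hL, hh⟩
      exact forward L hL hh (by omega) h8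
    · rintro ⟨a, ha, h1⟩
      exact backward ha h1
  · intro n h L hn hL hh h8
    exact rigid L hL hh (by omega) h8
  · intro n h L hn ho hL hh
    exact odd_part L hL hh hn ho
  · intro n h L hn ho hL hh
    exact two_mod_four_part L hL hh hn ho

end Pool.Agent.Results.MP_03d2dd_co.HighHomogeneity
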